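import Pool.Agent.H13.PRV.Fin
import Pool.Agent.H79.PRM.All
import Pool.Agent.H96.STR.SFN

/-!
# PRV: assembly
-/

set_option autoImplicit false

namespace Pool.PRV

open Polynomial IsDedekindDomain
open Pool.PRM (Reg)

/-- What is needed about the ring. -/
structure Pk {K : Type} [Field K] (v : ValuationSubring K) (S : Subring K) : Prop where
  ded : IsDedekindDomain S
  fr : @IsFractionRing S _ K _ (Pool.PRM.alg S)
  nv : ∃ a : S, (a : K) ∉ v

theorem pk {F K : Type} [Field F] [Finite F] (h2 : (2 : F) ≠ 0)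
    [Field K] [Algebra F K] [Algebra.EssFiniteType F K] (htr : Algebra.trdeg F K = 1)
    (v : ValuationSubring K) (hv : v ≠ ⊤) (π : K) (hπ : Unif v π) : Pk v (Reg v) := by
  obtain ⟨a, hfin, hsep, hone, hpole⟩ := Pool.T44.one_pole (F := F) htr v hv
  letI := a
  have h1 : Pk v (Pool.T1.RS F K) := by
    refine ⟨?_, ?_, ?_⟩
    · exact (inferInstance : IsDedekindDomain (Pool.T1.RR F K))
    · exact (inferInstance : IsFractionRing (Pool.T1.RR F K) K)
    · refine ⟨(Pool.T1.xR F K X : Pool.T1.RR F K), fun h6 => hone.1 ?_⟩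
      have h7 : algebraMap (Pool.T1.RR F K) K (Pool.T1.xR F K X) ∈ v := h6
      rwa [Pool.T1.algMap_RR, Pool.T1.xR_coe, RatFunc.algebraMap_X] at h7
  rw [Pool.PRM.reg_eq h2 hone hπ] at h1
  exact h1

/-- The main theorem. -/
theorem main_thm (F : Type) [Field F] [Finite F] (h2 : (2 : F) ≠ 0) (K : Type) [Field K]
    [Algebra F K] [Algebra.EssFiniteType F K] (htr : Algebra.trdeg F K = 1)
    (v : ValuationSubring K) (hv : v ≠ ⊤) (π : K) (hπ : Unif v π) (g : ℕ) (hg : 1 ≤ g) :
    Main v π g := by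
  obtain ⟨h3, h4, h5⟩ := pk (F := F) h2 htr v hv π hπ
  exact main_of hπ h5 (Pool.PRM.main_thm F h2 K htr v hv π hπ g hg)

end Pool.PRV
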