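import Pool.Agent.H13.PRV.Loc

/-!
# PRV: the data and the families
-/

set_option autoImplicit false

namespace Pool.PRV

open Polynomial IsDedekindDomain
open Pool.PRM (Reg Pl Zer md OkP Tws pr)

section P

variable {K : Type} [Field K] {v : ValuationSubring K}

attribute [local instance] Pool.PRM.alg

variable [IsDedekindDomain (Reg v)] [IsFractionRing (Reg v) K]

/-- The valuation rings of the primes. -/
noncomputable def ple : Pl v ↪ ValuationSubring K := ⟨pl, pl_inj⟩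

/-- The data `D'` over `K` and `D` over `Reg v` describe the same family. -/
structure Rel (g : ℕ) (D' : Data K) (D : Pool.PRM.Data v) : Prop where
  T : D'.T = D.T.map ple
  T' : D'.T' = D.T'.map ple
  fac : ∀ P ∈ D.T, Cong (pl P) (D'.φ (pl P)) (fk ((X - C (D.c P)) * D.γ P))
  rho : ∀ P ∈ D.T', Cong (pl P) (D'.φ (pl P)) (fk (D.ρ P))
  top : ∃ t₀ : v[X], t₀.map (algebraMap v K) = D'.φ v ∧
    t₀.map (IsLocalRing.residue v) = D.top
  deg : (D'.φ v).natDegree = 2 * g + 1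

theorem mem_ple {T : Finset (Pl v)} {w : ValuationSubring K} :
    w ∈ T.map ple ↔ ∃ P ∈ T, pl P = w := by
  rw [Finset.mem_map]
  exact Iff.rfl

theorem pl_mem {T : Finset (Pl v)} {P : Pl v} : pl P ∈ T.map ple ↔ P ∈ T :=
  Finset.mem_map' ple

theorem tr0_iff {g : ℕ} {D' : Data K} {D : Pool.PRM.Data v} (h : Rel g D' D) :
    D'.Tr0 v g ↔ D.Tr0 g := by
  have h1 : (∀ w ∈ D'.T, Van w ((D'.φ w).coeff (2 * g))) ↔
      ∀ P ∈ D.T, ((X - C (D.c P)) * D.γ P).coeff (2 * g) ∈ P.asIdeal := by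
    rw [h.T]
    constructor
    · intro h2 P hP
      have h3 := h2 (pl P) (pl_mem.2 hP)
      rw [van_congr (h.fac P hP (2 * g)), coeff_map] at h3
      exact (van_pl P _).1 h3
    · intro h2 w hw
      obtain ⟨P, hP, rfl⟩ := mem_ple.1 hw
      rw [van_congr (h.fac P hP (2 * g)), coeff_map]
      exact (van_pl P _).2 (h2 P hP)
  have h2 : (∀ w ∈ D'.T', Van w ((D'.φ w).coeff (2 * g))) ↔
      ∀ P ∈ D.T', (D.ρ P).coeff (2 * g) ∈ P.asIdeal := by
    rw [h.T']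
    constructor
    · intro h2 P hP
      have h3 := h2 (pl P) (pl_mem.2 hP)
      rw [van_congr (h.rho P hP (2 * g)), coeff_map] at h3
      exact (van_pl P _).1 h3
    · intro h2 w hw
      obtain ⟨P, hP, rfl⟩ := mem_ple.1 hw
      rw [van_congr (h.rho P hP (2 * g)), coeff_map]
      exact (van_pl P _).2 (h2 P hP)
  have h3 : Van v ((D'.φ v).coeff (2 * g)) ↔ D.top.coeff (2 * g) = 0 := by
    obtain ⟨t₀, ht1, ht2⟩ := h.top
    rw [← ht1, ← ht2, coeff_map, coeff_map]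
    exact van_res _
  unfold Data.Tr0 Pool.PRM.Data.Tr0
  rw [← h1, ← h2, ← h3]
  constructor
  · intro h4
    exact ⟨fun w hw => h4 w (Or.inl hw), fun w hw => h4 w (Or.inr (Or.inl hw)),
      h4 v (Or.inr (Or.inr rfl))⟩
  · rintro ⟨h4, h5, h6⟩ w (hw | hw | rfl)
    · exact h4 w hw
    · exact h5 w hw
    · exact h6

/-- The families. -/
theorem fam_eq {π : K} (hπ : Unif v π) (hv : ∃ a : Reg v, (a : K) ∉ v) {g : ℕ} {D' : Data K}
    {D : Pool.PRM.Data v} (h : Rel g D' D) (H : ℕ) :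
    Fam v π g D' H = fk '' Pool.PRM.Fam π g D H := by
  obtain ⟨t₀, ht1, ht2⟩ := h.top
  have key : ∀ f : (Reg v)[X], fk f ∈ Fam v π g D' H ↔ f ∈ Pool.PRM.Fam π g D H := by
    intro f
    have hpol : fk f ∈ PolV v g H ↔ f.Monic ∧ f.natDegree = 2 * g + 1 ∧
        ∀ i ≤ 2 * g + 1, (f.coeff (2 * g + 1 - i) : K) * π ^ (i * H) ∈ v := by
      unfold PolV
      rw [Set.mem_ofPred_eq, fk_monic, fk_deg]
      refine and_congr_right fun _ => and_congr_right fun _ => ?_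
      refine forall_congr' fun i => forall_congr' fun hi => ?_
      rw [coeff_map]
      exact pole_iff hπ (f.coeff (2 * g + 1 - i)).2 _
    have h1 : ∀ P ∈ D.T, Cong (pl P) (fk f) (D'.φ (pl P)) ↔
        Zer P.asIdeal (f - (X - C (D.c P)) * D.γ P) := by
      intro P hP
      rw [zer_sub, cong_left (h.fac P hP)]
    have h2 : ∀ P ∈ D.T', Cong (pl P) (fk f) (D'.φ (pl P)) ↔
        Zer P.asIdeal (f - D.ρ P) := by
      intro P hP
      rw [zer_sub, cong_left (h.rho P hP)]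
    constructor
    · rintro ⟨a1, a2, a3, a5⟩
      obtain ⟨b1, b2, b3⟩ := hpol.1 a1
      refine ⟨⟨?_, fun P hP => ?_, fun P hP => ?_⟩, fun P => ?_⟩
      · rw [top_iff ht2 (by rw [ht1, h.deg]) b1 b2, ht1]
        exact a2
      · rw [← h1 P hP]
        exact a3 _ (Or.inl (by rw [h.T]; exact pl_mem.2 hP))
      · rw [← h2 P hP]
        exact a3 _ (Or.inr (by rw [h.T']; exact pl_mem.2 hP))
      · rw [← sing_iff]
        exact a5 _ (pl_top P) (pl_ne hv P)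
    · rintro ⟨⟨b1, b3, b4⟩, b5⟩
      refine ⟨hpol.2 b1.1, ?_, fun w hw => ?_, fun w hw hw' => ?_⟩
      · rwa [top_iff ht2 (by rw [ht1, h.deg]) b1.1.1 b1.1.2.1, ht1] at b1
      · rcases hw with hw | hw
        · rw [h.T] at hw
          obtain ⟨P, hP, rfl⟩ := mem_ple.1 hw
          exact (h1 P hP).2 (b3 P hP)
        · rw [h.T'] at hw
          obtain ⟨P, hP, rfl⟩ := mem_ple.1 hw
          exact (h2 P hP).2 (b4 P hP)
      · obtain ⟨P, rfl⟩ := pl_ex hw hw'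
        rw [sing_iff]
        exact b5 P
  ext f
  constructor
  · intro hf
    obtain ⟨q, rfl⟩ := fk_ex (v := v) (reg_mem hf.1.2.1 fun i hi => (hf.1.2.2 i hi).1)
    exact ⟨q, (key q).1 hf, rfl⟩
  · rintro ⟨q, hq, rfl⟩
    exact (key q).2 hq

omit [IsDedekindDomain (Reg v)] [IsFractionRing (Reg v) K] in
theorem fk_zero {g : ℕ} (A : Set (Reg v)[X]) :
    Zero g (fk '' A) = fk '' {f | f ∈ A ∧ f.coeff (2 * g) = 0} := by
  have h0 : ∀ f : (Reg v)[X], (fk f).coeff (2 * g) = 0 ↔ f.coeff (2 * g) = 0 := by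
    intro f
    rw [coeff_map]
    exact map_eq_zero_iff _ Subtype.val_injective
  ext q
  constructor
  · rintro ⟨⟨f, hf, rfl⟩, h⟩
    exact ⟨f, ⟨hf, (h0 f).1 h⟩, rfl⟩
  · rintro ⟨f, ⟨hf, h⟩, rfl⟩
    exact ⟨⟨f, hf, rfl⟩, (h0 f).2 h⟩

omit [IsDedekindDomain (Reg v)] [IsFractionRing (Reg v) K] in
theorem hyp_eq (g h : ℕ) : HypV v g h = Pool.PRM.HypV v g h := by
  ext f
  constructor
  · rintro ⟨⟨h1, h2, h3⟩, h4⟩
    exact ⟨h1, h2, h3, h4⟩
  · rintro ⟨h1, h2, h3, h4⟩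
    exact ⟨⟨h1, h2, h3⟩, h4⟩

/-- A finite set of places. -/
theorem ex_fin {T : Finset (ValuationSubring K)} (h : ∀ w ∈ T, w ≠ ⊤ ∧ w ≠ v) :
    ∃ S : Finset (Pl v), T = S.map ple := by
  classical
  refine ⟨T.preimage pl pl_inj.injOn, ?_⟩
  ext w
  rw [mem_ple]
  constructor
  · intro hw
    obtain ⟨P, rfl⟩ := pl_ex (h w hw).1 (h w hw).2
    exact ⟨P, Finset.mem_preimage.2 hw, rfl⟩
  · rintro ⟨P, hP, rfl⟩
    exact Finset.mem_preimage.1 hP

/-- From data over `K` to data over `Reg v`. -/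
theorem ex_data {g : ℕ} {D' : Data K} (h : D'.Ok v g) :
    ∃ D : Pool.PRM.Data v, Rel g D' D ∧ D.Ok g := by
  obtain ⟨h1, h2, h3, h4⟩ := h
  obtain ⟨T, hT⟩ := ex_fin (v := v) (T := D'.T) fun w hw => h2 w (Or.inl hw)
  obtain ⟨T', hT'⟩ := ex_fin (v := v) (T := D'.T') fun w hw => h2 w (Or.inr hw)
  have hc : ∀ P : Pl v, ∃ (a : Reg v) (q : (Reg v)[X]), P ∈ T → OkP (2 * g) P.asIdeal q ∧
      Cong (pl P) (D'.φ (pl P)) (fk ((X - C a) * q)) := by
    intro P
    by_cases hP : P ∈ T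
    · obtain ⟨c, γ, hc, hγ, hφ⟩ := h3 (pl P) (by rw [hT]; exact pl_mem.2 hP)
      obtain ⟨a, ha⟩ := apx P hc
      obtain ⟨q, hq, hq'⟩ := apx_irr P hγ
      exact ⟨a, q, fun _ => ⟨hq, by rw [hφ]; exact cong_fac P ha hc hq'⟩⟩
    · exact ⟨0, 0, fun h => (hP h).elim⟩
  have hr : ∀ P : Pl v, ∃ q : (Reg v)[X], P ∈ T' → OkP (2 * g + 1) P.asIdeal q ∧
      Cong (pl P) (D'.φ (pl P)) (fk q) := by
    intro P
    by_cases hP : P ∈ T'
    · obtain ⟨q, hq⟩ := apx_irr P (h4 (pl P) (Or.inl (by rw [hT']; exact pl_mem.2 hP)))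
      exact ⟨q, fun _ => hq⟩
    · exact ⟨0, fun h => (hP h).elim⟩
  choose c γ hγ using hc
  choose ρ hρ using hr
  obtain ⟨h5, h6, t₀, h7, h8⟩ := h4 v (Or.inr rfl)
  have ht : t₀.Monic := Polynomial.monic_of_injective
    (f := algebraMap v K) Subtype.val_injective (by rw [h7]; exact h5)
  refine ⟨⟨T, T', c, γ, ρ, t₀.map (IsLocalRing.residue v)⟩, ⟨hT, hT', fun P hP => (hγ P hP).2,
    fun P hP => (hρ P hP).2, ⟨t₀, h7, rfl⟩, h6⟩, ?_, fun P hP => (hγ P hP).1,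
    fun P hP => (hρ P hP).1, ht.map _, ?_, h8⟩
  · rw [hT, hT', Finset.disjoint_map] at h1
    exact h1
  · show (t₀.map (IsLocalRing.residue v)).natDegree = 2 * g + 1
    rw [ht.natDegree_map, ← h6, ← h7]
    exact (Polynomial.natDegree_map_eq_of_injective Subtype.val_injective _).symm

/-- From data over `Reg v` to data over `K`. -/
theorem ex_data' (hv : ∃ a : Reg v, (a : K) ∉ v) {g : ℕ} {D : Pool.PRM.Data v} (h : D.Ok g) :
    ∃ D' : Data K, Rel g D' D ∧ D'.Ok v g := by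
  classical
  obtain ⟨h1, h2, h3, h4, h5, h6⟩ := h
  obtain ⟨t₀, ht1, ht2, ht3⟩ := Polynomial.lifts_and_natDegree_eq_and_monic (f := IsLocalRing.residue v)
    (p := D.top) (by
      obtain ⟨q, hq⟩ := Polynomial.map_surjective (IsLocalRing.residue v)
        IsLocalRing.residue_surjective D.top
      exact ⟨q, hq⟩) h4
  have hdeg : (t₀.map (algebraMap v K)).natDegree = 2 * g + 1 := by
    rw [ht3.natDegree_map, ht2, h5]
  obtain ⟨φ, hφ1, hφ2, hφ3⟩ : ∃ φ : ValuationSubring K → K[X],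
      (∀ P ∈ D.T, φ (pl P) = fk ((X - C (D.c P)) * D.γ P)) ∧
      (∀ P ∈ D.T', φ (pl P) = fk (D.ρ P)) ∧ φ v = t₀.map (algebraMap v K) := by
    refine ⟨fun w => if w = v then t₀.map (algebraMap v K) else
      Function.extend pl (fun P => if P ∈ D.T then fk ((X - C (D.c P)) * D.γ P) else
        fk (D.ρ P)) 0 w, fun P hP => ?_, fun P hP => ?_, if_pos rfl⟩
    · show (if pl P = v then _ else Function.extend pl _ 0 (pl P)) = _
      rw [if_neg (pl_ne hv P), pl_inj.extend_apply, if_pos hP]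
    · show (if pl P = v then _ else Function.extend pl _ 0 (pl P)) = _
      rw [if_neg (pl_ne hv P), pl_inj.extend_apply,
        if_neg fun h => Finset.disjoint_left.1 h1 h hP]
  have hrefl : ∀ (w : ValuationSubring K) (p : K[X]), Cong w p p := by
    intro w p i
    rw [sub_self]
    exact Or.inl rfl
  have hpl : ∀ w, w ∈ D.T.map ple ∨ w ∈ D.T'.map ple → w ≠ ⊤ ∧ w ≠ v := by
    rintro w (hw | hw)
    · obtain ⟨P, -, rfl⟩ := mem_ple.1 hw
      exact ⟨pl_top P, pl_ne hv P⟩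
    · obtain ⟨P, -, rfl⟩ := mem_ple.1 hw
      exact ⟨pl_top P, pl_ne hv P⟩
  refine ⟨⟨D.T.map ple, D.T'.map ple, φ⟩, ⟨rfl, rfl, fun P hP => ?_, fun P hP => ?_,
    ⟨t₀, hφ3.symm, ht1⟩, ?_⟩, ?_, hpl, fun w hw => ?_, ?_⟩
  · show Cong (pl P) (φ (pl P)) _
    rw [hφ1 P hP]
    exact hrefl _ _
  · show Cong (pl P) (φ (pl P)) _
    rw [hφ2 P hP]
    exact hrefl _ _
  · show (φ v).natDegree = 2 * g + 1
    rw [hφ3, hdeg]
  · show Disjoint (D.T.map ple) (D.T'.map ple)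
    rw [Finset.disjoint_map]
    exact h1
  · obtain ⟨P, hP, rfl⟩ := mem_ple.1 hw
    refine ⟨(D.c P : K), fk (D.γ P), reg_pl P _, okP_irr P (h2 P hP), ?_⟩
    show φ (pl P) = _
    rw [hφ1 P hP]
    show ((X - C (D.c P)) * D.γ P).map (Reg v).subtype = _
    rw [Polynomial.map_mul, Polynomial.map_sub, Polynomial.map_X, Polynomial.map_C]
    rfl
  · rintro w (hw | rfl)
    · obtain ⟨P, hP, rfl⟩ := mem_ple.1 hw
      show Irr (pl P) (2 * g + 1) (φ (pl P))
      rw [hφ2 P hP]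
      exact okP_irr P (h3 P hP)
    · show Irr w (2 * g + 1) (φ w)
      rw [hφ3]
      refine ⟨ht3.map _, hdeg, t₀, rfl, ?_⟩
      rw [ht1]
      exact h6

end P

end Pool.PRV
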