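import Mathlib

/-!
# The Poonen-Rains law for 2-Selmer groups over a global function field: definitions

`K` is a function field in one variable over a finite field of odd order.  A place of `K` is a
valuation ring `w ≠ K` of `K`; `v` is a place and `π` a uniformizer at `v`.
-/

set_option autoImplicit false

namespace Pool.PRV

open Polynomial

/-! ### The 2-Selmer group -/

/-- `L`, with the valuation ring `O`, is a completion of `K`: it is a complete discretely valued
field with finite residue field and `K` is dense in it. -/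
structure Completion (K : Type) [Field K] (L : Type) [Field L] (O : ValuationSubring L)
    (ι : K →+* L) : Prop where
  dvr : IsDiscreteValuationRing O
  complete : IsAdicComplete (IsLocalRing.maximalIdeal O) O
  fin : Finite (IsLocalRing.ResidueField O)
  dense : ∀ z a : L, a ≠ 0 → ∃ x : K, (z - ι x) / a ∈ O

variable {K : Type} [Field K]

/-- Over `L`, modulo squares, `p` is the class modulo `f` of a divisor of the curve `y² = f(x)`: of
`(-1)^(deg u) u`, for a monic polynomial `u`, prime to `f`, such that `f` is a square modulo `u`. -/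
def Loc {L : Type} [Field L] (ι : K →+* L) (f p : K[X]) : Prop :=
  ∃ u w s : L[X], u.Monic ∧ IsCoprime u (f.map ι) ∧ u ∣ w ^ 2 - f.map ι ∧
    f.map ι ∣ (-1) ^ u.natDegree * u - p.map ι * s ^ 2

/-- The 2-Selmer group over `K` of the Jacobian of the curve `y² = f(x)`, `f` monic, separable and of
odd degree, in its classical description: the classes modulo squares of the units `p` of `K[x]/(f)`
whose norm is a square and which are, over every completion of `K`, classes of divisors. -/
def IsSel (f p : K[X]) : Prop :=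
  IsCoprime p f ∧ IsSquare (Algebra.norm K (AdjoinRoot.mk f p)) ∧
    ∀ (L : Type) [Field L] (O : ValuationSubring L) (ι : K →+* L), Completion K L O ι →
      Loc ι f p

/-- The class of the unit `p` of `K[x]/(f)` modulo squares. -/
def cls (f p : K[X]) : Set K[X] := {q | IsCoprime q f ∧ ∃ s : K[X], f ∣ q - p * s ^ 2}

/-- The number of elements of the 2-Selmer group (zero if it is infinite). -/
noncomputable def nSel (f : K[X]) : ℕ := {c : Set K[X] | ∃ p, IsSel f p ∧ c = cls f p}.ncard

/-- The group of the rational points of the elliptic curve `y² = f(x)`, `f` monic of degree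
three. -/
abbrev Pts (f : K[X]) : Type :=
  (⟨0, f.coeff 2, 0, f.coeff 1, f.coeff 0⟩ : WeierstrassCurve K).toAffine.Point

open Classical in
/-- The group of the points of `y² = f(x)` is finitely generated, of rank `r`. -/
def Rank (f : K[X]) (r : ℕ) : Prop := AddGroup.FG (Pts f) ∧ Module.finrank ℤ (Pts f) = r

/-- The Poonen-Rains law for the prime `2`: `∏ (1 + 2^(-j))⁻¹ (j ≥ 0)` times
`∏ 2 / (2^j - 1) (1 ≤ j ≤ r)`. -/
noncomputable def PR (r : ℕ) : ℝ :=
  (∏' j : ℕ, (1 + (1 / 2 : ℝ) ^ j))⁻¹ * ∏ j ∈ Finset.range r, 2 / ((2 : ℝ) ^ (j + 1) - 1)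

/-- The distribution of the 2-Selmer groups of the elements of the finite set `Z` is the law of
Poonen and Rains up to `ε`; the 2-Selmer rank is even for one half of them, up to `ε`. -/
def LawZ (ε : ℝ) (Z : Set K[X]) : Prop :=
  (∀ B : ℕ, ∑ r ∈ Finset.range B,
    |({f | f ∈ Z ∧ nSel f = 2 ^ r}.ncard : ℝ) / Z.ncard - PR r| ≤ ε) ∧
  |({f | f ∈ Z ∧ ∃ r : ℕ, Even r ∧ nSel f = 2 ^ r}.ncard : ℝ) / Z.ncard - 1 / 2| ≤ ε ∧
  (0.2097 - ε) * Z.ncard ≤ {f | f ∈ Z ∧ nSel f = 1}.ncard

/-- Genus one: if the 2-Selmer group is finite, then the group of points is finitely generated and its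
rank is at most the 2-Selmer rank. -/
def MW (f : K[X]) : Prop := 0 < nSel f → ∃ r : ℕ, Rank f r ∧ 2 ^ r ≤ nSel f

/-- Genus one: the group of points is finite for 20.97 per cent of the elements of `Z`, and its rank is
at most one for 62.91 per cent, up to `ε`. -/
def RankZ (ε : ℝ) (Z : Set K[X]) : Prop :=
  (∀ f ∈ Z, MW f) ∧
  (0.2097 - ε) * Z.ncard ≤ {f | f ∈ Z ∧ Finite (Pts f)}.ncard ∧
  (0.6291 - ε) * Z.ncard ≤ {f | f ∈ Z ∧ ∃ r ≤ 1, Rank f r}.ncard

/-! ### Places -/

/-- A uniformizer at `w`. -/
def Unif (w : ValuationSubring K) (π : K) : Prop :=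
  π ≠ 0 ∧ π ∈ w ∧ π⁻¹ ∉ w ∧ ∀ z : K, z ∈ w → z⁻¹ ∉ w → z / π ∈ w

/-- The element `a` of `K` is in the maximal ideal of `w`. -/
def Van (w : ValuationSubring K) (a : K) : Prop := a = 0 ∨ a⁻¹ ∉ w

/-- The coefficients of `p` are in `w`. -/
def Coef (w : ValuationSubring K) (p : K[X]) : Prop := ∀ i, p.coeff i ∈ w

/-- `p` and `q` are congruent modulo the maximal ideal of `w`. -/
def Cong (w : ValuationSubring K) (p q : K[X]) : Prop := ∀ i, Van w (p.coeff i - q.coeff i)

/-- The polynomial `f` is monic, of degree `n`, has coefficients in `w` and is irreducible over the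
residue field. -/
def Irr (w : ValuationSubring K) (n : ℕ) (f : K[X]) : Prop :=
  f.Monic ∧ f.natDegree = n ∧
    ∃ f₀ : w[X], f₀.map (algebraMap w K) = f ∧ Irreducible (f₀.map (IsLocalRing.residue w))

/-- The scheme `f(x) = 0` over `w` has a singular point: `f` is in the square of the ideal of `w[x]`
generated by a uniformizer `ϖ` and a monic `γ` which is irreducible over the residue field. -/
def Sing (w : ValuationSubring K) (f : K[X]) : Prop :=
  ∃ (ϖ : K) (n : ℕ) (γ a b c : K[X]), Unif w ϖ ∧ Irr w n γ ∧ Coef w a ∧ Coef w b ∧ Coef w c ∧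
    f = γ ^ 2 * a + C ϖ * γ * b + C (ϖ ^ 2) * c

/-! ### The families -/

/-- The element `a` of `K` is regular outside the place `v` and has there a pole of order at most
`m`. -/
def PoleV (v : ValuationSubring K) (m : ℕ) (a : K) : Prop :=
  (∀ w : ValuationSubring K, w ≠ v → a ∈ w) ∧ ∀ π : K, π ∈ v → π⁻¹ ∉ v → a * π ^ m ∈ v

/-- The polynomials `x^(2g+1) + a_1 x^(2g) + ... + a_(2g+1)` over `K` such that `a_i` is regular
outside the place `v` and has there a pole of order at most `i h`. -/
def PolV (v : ValuationSubring K) (g h : ℕ) : Set K[X] :=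
  {f | f.Monic ∧ f.natDegree = 2 * g + 1 ∧
    ∀ i ≤ 2 * g + 1, PoleV v (i * h) (f.coeff (2 * g + 1 - i))}

/-- All curves `y² = f(x)` of genus `g` and height at most `h`. -/
def HypV (v : ValuationSubring K) (g h : ℕ) : Set K[X] := {f | f ∈ PolV v g h ∧ f.Separable}

/-- Local data: finite sets `T` and `T'` of places, and for every place `w` of `T ∪ T' ∪ {v}` a
polynomial `φ w`. -/
structure Data (K : Type) [Field K] where
  /-- the places where `f` is linear times irreducible -/
  T : Finset (ValuationSubring K)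
  /-- the places where `f` is irreducible -/
  T' : Finset (ValuationSubring K)
  /-- the reductions -/
  φ : ValuationSubring K → K[X]

/-- The conditions on the data: `T` and `T'` are disjoint sets of places different from `v`; modulo the
places of `T`, `φ` is the product of some `x - c` and an irreducible `γ` of degree `2 g`; modulo `v` and
the places of `T'`, `φ` is irreducible of degree `2 g + 1`. -/
def Data.Ok (D : Data K) (v : ValuationSubring K) (g : ℕ) : Prop :=
  Disjoint D.T D.T' ∧ (∀ w, w ∈ D.T ∨ w ∈ D.T' → w ≠ ⊤ ∧ w ≠ v) ∧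
    (∀ w ∈ D.T, ∃ (c : K) (γ : K[X]), c ∈ w ∧ Irr w (2 * g) γ ∧ D.φ w = (X - C c) * γ) ∧
    ∀ w, w ∈ D.T' ∨ w = v → Irr w (2 * g + 1) (D.φ w)

/-- The data have trace zero. -/
def Data.Tr0 (D : Data K) (v : ValuationSubring K) (g : ℕ) : Prop :=
  ∀ w, w ∈ D.T ∨ w ∈ D.T' ∨ w = v → Van w ((D.φ w).coeff (2 * g))

/-- The family: all polynomials `f` of height `h` for which the scheme `f(x) = 0` is regular outside
`v`, congruent to `φ w` modulo the places `w` of `T` and `T'`, and with the top coefficients `φ v` at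
`v`: modulo `v` the `a_i π^(i h)` are the coefficients of `φ v`. -/
def Fam (v : ValuationSubring K) (π : K) (g : ℕ) (D : Data K) (h : ℕ) : Set K[X] :=
  {f | f ∈ PolV v g h ∧ Cong v (f.scaleRoots (π ^ h)) (D.φ v) ∧
    (∀ w, w ∈ D.T ∨ w ∈ D.T' → Cong w f (D.φ w)) ∧
    ∀ w : ValuationSubring K, w ≠ ⊤ → w ≠ v → ¬ Sing w f}

/-- The elements `d w`, `w ∈ T`, may be used for the twists: `d w` is regular outside `v`, has order
one at `w` and order zero at all other places outside `T' ∪ {v}`; the products of the `d w` have at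
`v` poles of order at most `E`. -/
def Tws (v : ValuationSubring K) (π : K) (D : Data K) (d : ValuationSubring K → K) (E : ℕ) : Prop :=
  (∀ w ∈ D.T, Unif w (d w) ∧ (∀ w' : ValuationSubring K, w' ≠ v → d w ∈ w') ∧
    ∀ w' : ValuationSubring K, w' ≠ v → w' ≠ w → w' ∉ D.T' → (d w)⁻¹ ∈ w') ∧
  ∀ S ⊆ D.T, (∏ w ∈ S, d w) * π ^ E ∈ v

/-- `S` is a set of `j` or `j + 1` elements of `T`. -/
def Half (j : ℕ) (T S : Finset (ValuationSubring K)) : Prop :=
  S ⊆ T ∧ (S.card = j ∨ S.card = j + 1)

/-- The twist of the curve `y² = f(x)` by the product of the `d w`, `w ∈ S`, as a polynomial: the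
twist `a y² = f(x)` is the curve `y² = a^(2g+1) f(x / a)`. -/
noncomputable def tw (d : ValuationSubring K → K) (S : Finset (ValuationSubring K)) (f : K[X]) :
    K[X] :=
  f.scaleRoots (∏ w ∈ S, d w)

/-- The set of the twists of the elements of `A` for the sets `S` of `j` or `j + 1` elements of `T`,
where `#T = 2 j + 1`. -/
def Tw (D : Data K) (d : ValuationSubring K → K) (A : Set K[X]) : Set K[X] :=
  {q | ∃ f ∈ A, ∃ S, Half (D.T.card / 2) D.T S ∧ q = tw d S f}

/-- The law for the twists of the single polynomial `f`: the Selmer groups have `2^r` elements, `r` is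
even for exactly one half of the twists, and the distribution of `r` is the law of Poonen and Rains
up to `ε`. -/
def LawT (ε : ℝ) (D : Data K) (d : ValuationSubring K → K) (f : K[X]) : Prop :=
  (∀ S, Half (D.T.card / 2) D.T S → ∃ r : ℕ, nSel (tw d S f) = 2 ^ r) ∧
  2 * {S | Half (D.T.card / 2) D.T S ∧ ∃ r : ℕ, Even r ∧ nSel (tw d S f) = 2 ^ r}.ncard =
    {S | Half (D.T.card / 2) D.T S}.ncard ∧
  ∀ B : ℕ, ∑ r ∈ Finset.range B,
    |({S | Half (D.T.card / 2) D.T S ∧ nSel (tw d S f) = 2 ^ r}.ncard : ℝ) /
      {S | Half (D.T.card / 2) D.T S}.ncard - PR r| ≤ ε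

/-- The elements of `A` with `a_1 = 0`. -/
def Zero (g : ℕ) (A : Set K[X]) : Set K[X] := {f | f ∈ A ∧ f.coeff (2 * g) = 0}

/-- The set `Z` has density at least `c` in the finite, nonempty set `H`. -/
def Pos (c : ℝ) (Z H : Set K[X]) : Prop := Z ⊆ H ∧ H.Finite ∧ 0 < H.ncard ∧ c * H.ncard ≤ Z.ncard

/-- For all large `h` the set `τ (Fam h)` of twists of the elements of `Fam h` has positive density
among all curves of height `h + E`, and has the property `Q`; if the data have trace zero and `2 g + 1`
is not zero in `K`, the same holds for the equations with `a_1 = 0`. -/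
def Large (v : ValuationSubring K) (π : K) (g : ℕ) (D : Data K) (E : ℕ)
    (τ : Set K[X] → Set K[X]) (Q : Set K[X] → Prop) : Prop :=
  ∃ c : ℝ, 0 < c ∧ ∃ h₀ : ℕ, ∀ h : ℕ, h₀ ≤ h →
    (Pos c (τ (Fam v π g D h)) (HypV v g (h + E)) ∧ Q (τ (Fam v π g D h))) ∧
    (((2 * g + 1 : ℕ) : K) ≠ 0 → D.Tr0 v g →
      Pos c (τ (Zero g (Fam v π g D h))) (Zero g (HypV v g (h + E))) ∧
        Q (τ (Zero g (Fam v π g D h))))

/-- The law for the families given by the data `D`, for all large heights. -/
def Law (v : ValuationSubring K) (π : K) (g : ℕ) (ε : ℝ) (D : Data K) (d : ValuationSubring K → K)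
    (E : ℕ) : Prop :=
  (Large v π g D E (Tw D d) fun Z => LawZ ε Z ∧ (g = 1 → RankZ ε Z)) ∧
  ∃ h₀ : ℕ, ∀ h : ℕ, h₀ ≤ h →
    ({f | f ∈ Fam v π g D h ∧ ¬ LawT ε D d f}.ncard : ℝ) ≤ ε * (Fam v π g D h).ncard

/-! ### Many twists of one curve -/

/-- `L`, with the valuation ring `O`, is a completion of `K` at the place `w`, and over `L` the
polynomial `p` is not a square modulo `f`. -/
def NonSq (w : ValuationSubring K) (f p : K[X]) (L : Type) [Field L] (O : ValuationSubring L)
    (ι : K →+* L) : Prop :=
  Completion K L O ι ∧ O.comap ι = w ∧ ¬ ∃ s : L[X], f.map ι ∣ p.map ι - s ^ 2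

/-- The 2-Selmer group has exactly two elements, and the nontrivial one, the class of `p`, is not
trivial over the completion of `K` at the place `w`. -/
def SelTwo (w : ValuationSubring K) (f : K[X]) : Prop :=
  nSel f = 2 ∧ ∀ p, IsSel f p → (¬ ∃ s, f ∣ p - s ^ 2) →
    ∃ (L : Type) (_ : Field L) (O : ValuationSubring L) (ι : K →+* L), NonSq w f p L O ι

/-- There are `m + 1` elements `t i` of `K`, independent modulo squares, such that for each of the
`2^(m+1)` products `t_I` of some of them the 2-Selmer group of the twist of `f` by `t_I` is trivial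
if `t 0` is a factor of the product, and has exactly two elements if not; the nontrivial one is then
not trivial over the completion of `K` at `w`.  The `t i` have order zero at all places outside
`T ∪ T' ∪ {v}`, and also at `w` if `i ≠ 0`. -/
def Rich (m : ℕ) (v : ValuationSubring K) (D : Data K) (w : ValuationSubring K) (f : K[X]) : Prop :=
  ∃ t : ℕ → K, (∀ i ≤ m, t i ≠ 0) ∧
    (∀ i ≤ m, ∀ w' : ValuationSubring K, w' ≠ v → w' ∉ D.T → w' ∉ D.T' →
      t i ∈ w' ∧ (t i)⁻¹ ∈ w') ∧
    (∀ i ≤ m, i ≠ 0 → t i ∈ w ∧ (t i)⁻¹ ∈ w) ∧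
    ∀ I ⊆ Finset.range (m + 1), (I.Nonempty → ¬ IsSquare (∏ i ∈ I, t i)) ∧
      (0 ∈ I → nSel (f.scaleRoots (∏ i ∈ I, t i)) = 1) ∧
      (0 ∉ I → SelTwo w (f.scaleRoots (∏ i ∈ I, t i)))

/-- The set of the twists of the elements of `A` by `d w` times the product of the `d w'`, `w' ∈ S`,
`S` a set of `j` or `j + 1` elements of `T` different from `w`, where `T` has `2 j + 2` elements. -/
def TwI (D : Data K) (w : ValuationSubring K) (d : ValuationSubring K → K) (A : Set K[X]) :
    Set K[X] :=
  {q | ∃ f ∈ A, ∃ S, Half ((D.T.card - 1) / 2) D.T S ∧ w ∉ S ∧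
    q = f.scaleRoots (d w * ∏ w' ∈ S, d w')}

/-- Many twists, for the families given by the data `D`, for all large heights: `Rich` holds for a
proportion of at least `0.2097 - ε` of the curves.  For `g = 1` the rank of every twist is at most the
2-Selmer rank, if the latter is finite. -/
def Multi (m : ℕ) (v : ValuationSubring K) (π : K) (g : ℕ) (ε : ℝ) (D : Data K)
    (w : ValuationSubring K) (d : ValuationSubring K → K) (E : ℕ) : Prop :=
  Large v π g D E (TwI D w d) fun Z =>
    (0.2097 - ε) * Z.ncard ≤ {f | f ∈ Z ∧ Rich m v D w f}.ncard ∧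
      (g = 1 → ∀ f ∈ Z, ∀ t : K, t ≠ 0 → MW (f.scaleRoots t))

/-- The conditions on the data, for the set `T'` and the numbers `k` and `b`: `T` has `k` elements,
their residue fields have more than `b` elements. -/
def Fits (v : ValuationSubring K) (g : ℕ) (T' : Finset (ValuationSubring K)) (k b : ℕ)
    (D : Data K) : Prop :=
  D.Ok v g ∧ D.T' = T' ∧ D.T.card = k ∧ ∀ w ∈ D.T, b < Nat.card (IsLocalRing.ResidueField w)

/-- The main statement for the place `v`, the uniformizer `π` and the genus `g`, where `K` is a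
function field in one variable over a finite field of odd order.  There is a finite set `A` of
places such that the following holds if `T'` contains `A`, the number `k` of the elements of `T` is
large (in terms of `T'`, `m` and `ε`) and the residue fields of the elements of `T` are large; data,
also of trace zero, and twisting elements exist.  If `k` is odd, the law holds for the twists of the
family `Fam`.  If `k` is even and `w ∈ T`, then `Rich m v D w` holds for at least `0.2097 - ε` of the
twists of this family. -/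
def Main (v : ValuationSubring K) (π : K) (g : ℕ) : Prop :=
  ∃ A : Finset (ValuationSubring K), (∀ w ∈ A, w ≠ ⊤ ∧ w ≠ v) ∧
    ∀ T' : Finset (ValuationSubring K), (∀ w ∈ T', w ≠ ⊤ ∧ w ≠ v) → A ⊆ T' →
    ∀ (m : ℕ) (ε : ℝ), 0 < ε → ∃ k₀ : ℕ, ∀ k : ℕ, k₀ ≤ k → ∃ b : ℕ,
    (∃ D, Fits v g T' k b D ∧ (((2 * g + 1 : ℕ) : K) ≠ 0 → D.Tr0 v g)) ∧
    ∀ D, Fits v g T' k b D → (∃ (d : ValuationSubring K → K) (E : ℕ), Tws v π D d E) ∧
      ∀ (d : ValuationSubring K → K) (E : ℕ), Tws v π D d E →
        (Odd k → Law v π g ε D d E) ∧ (Even k → ∀ w ∈ D.T, Multi m v π g ε D w d E)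

end Pool.PRV
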