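import Pool.Agent.H13.PRV.Dat

/-!
# PRV: twists and the main statement
-/

set_option autoImplicit false

namespace Pool.PRV

open Polynomial IsDedekindDomain
open Pool.PRM (Reg Pl Zer md OkP pr)

section P

variable {K : Type} [Field K] {v : ValuationSubring K}

theorem map_sr (a : Reg v) (f : (Reg v)[X]) : Pool.PRM.tw a f = (fk f).scaleRoots (a : K) := by
  ext n
  show ((f.scaleRoots a).map (Reg v).subtype).coeff n = _
  rw [coeff_map, coeff_scaleRoots, coeff_scaleRoots, fk_deg, coeff_map, map_mul, map_pow]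
  rfl

attribute [local instance] Pool.PRM.alg

variable [IsDedekindDomain (Reg v)] [IsFractionRing (Reg v) K]

theorem pr_map {T S : Finset (Pl v)} {d : Pl v → Reg v} {d' : ValuationSubring K → K}
    (hd : ∀ P ∈ T, (d P : K) = d' (pl P)) (hS : S ⊆ T) :
    ((pr d S : Reg v) : K) = ∏ w ∈ S.map ple, d' w := by
  rw [Finset.prod_map]
  show (Reg v).subtype (∏ P ∈ S, d P) = _
  rw [map_prod]
  exact Finset.prod_congr rfl fun P hP => hd P (hS hP)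

theorem half_iff' {j : ℕ} {T : Finset (Pl v)} {S' : Finset (ValuationSubring K)} :
    Half j (T.map ple) S' ↔ ∃ S : Finset (Pl v), S ⊆ T ∧ (S.card = j ∨ S.card = j + 1) ∧
      S' = S.map ple := by
  unfold Half
  constructor
  · rintro ⟨h1, h2⟩
    obtain ⟨S, hS, rfl⟩ := Finset.subset_map_iff.1 h1
    rw [Finset.card_map] at h2
    exact ⟨S, hS, h2, rfl⟩
  · rintro ⟨S, h1, h2, rfl⟩
    refine ⟨Finset.map_subset_map.2 h1, ?_⟩
    rw [Finset.card_map]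
    exact h2

theorem half_iff {T : Finset (Pl v)} {S' : Finset (ValuationSubring K)} :
    Half ((T.map ple).card / 2) (T.map ple) S' ↔ ∃ S ∈ Pool.PRM.Sl T, S' = S.map ple := by
  rw [half_iff', Finset.card_map]
  unfold Pool.PRM.Sl
  simp only [Finset.mem_filter, Finset.mem_powerset, and_assoc]

omit [IsDedekindDomain (Reg v)] [IsFractionRing (Reg v) K] in
theorem sl_sub {T S : Finset (Pl v)} (h : S ∈ Pool.PRM.Sl T) : S ⊆ T := by
  unfold Pool.PRM.Sl at h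
  exact Finset.mem_powerset.1 (Finset.mem_filter.1 h).1

theorem tw_eq {T S : Finset (Pl v)} {d : Pl v → Reg v} {d' : ValuationSubring K → K}
    (hd : ∀ P ∈ T, (d P : K) = d' (pl P)) (hS : S ⊆ T) (f : (Reg v)[X]) :
    tw d' (S.map ple) (fk f) = Pool.PRM.tw (pr d S) f := by
  rw [map_sr, pr_map hd hS]
  rfl

theorem Tw_eq {D' : Data K} {D : Pool.PRM.Data v} (hT : D'.T = D.T.map ple)
    {d : Pl v → Reg v} {d' : ValuationSubring K → K}
    (hd : ∀ P ∈ D.T, (d P : K) = d' (pl P)) (A : Set (Reg v)[X]) :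
    Tw D' d' (fk '' A) = Pool.PRM.Tw D d A := by
  ext q
  constructor
  · rintro ⟨-, ⟨f, hf, rfl⟩, S', hS', rfl⟩
    rw [hT, half_iff] at hS'
    obtain ⟨S, hS, rfl⟩ := hS'
    exact ⟨f, hf, S, hS, tw_eq hd (sl_sub hS) f⟩
  · rintro ⟨f, hf, S, hS, rfl⟩
    refine ⟨fk f, ⟨f, hf, rfl⟩, S.map ple, ?_, (tw_eq hd (sl_sub hS) f).symm⟩
    rw [hT, half_iff]
    exact ⟨S, hS, rfl⟩

theorem TwI_eq {D' : Data K} {D : Pool.PRM.Data v} (hT : D'.T = D.T.map ple)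
    {d : Pl v → Reg v} {d' : ValuationSubring K → K}
    (hd : ∀ P ∈ D.T, (d P : K) = d' (pl P)) {P : Pl v} (hP : P ∈ D.T) (A : Set (Reg v)[X]) :
    TwI D' (pl P) d' (fk '' A) = Pool.PRM.TwI D P d A := by
  classical
  have hpr : ∀ S ⊆ D.T, ((d P : Reg v) : K) * ((pr d S : Reg v) : K) =
      d' (pl P) * ∏ w ∈ S.map ple, d' w := by
    intro S hS
    rw [hd P hP, pr_map hd hS]
  ext q
  constructor
  · rintro ⟨-, ⟨f, hf, rfl⟩, S', hS', hPS, rfl⟩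
    rw [hT, half_iff', Finset.card_map] at hS'
    obtain ⟨S, hS, hc, rfl⟩ := hS'
    rw [pl_mem] at hPS
    unfold Pool.PRM.TwI
    refine ⟨f, hf, S, ?_, ?_⟩
    · unfold Pool.PRM.Sl
      rw [Finset.mem_filter, Finset.mem_powerset, Finset.card_erase_of_mem hP]
      exact ⟨fun Q hQ => Finset.mem_erase.2 ⟨fun h => hPS (h ▸ hQ), hS hQ⟩, hc⟩
    · rw [map_sr, ← hpr S hS]
      congr 1
      unfold pr
      rw [Finset.prod_insert hPS]
      rfl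
  · intro hq
    unfold Pool.PRM.TwI at hq
    obtain ⟨f, hf, S, hS, rfl⟩ := hq
    unfold Pool.PRM.Sl at hS
    rw [Finset.mem_filter, Finset.mem_powerset, Finset.card_erase_of_mem hP] at hS
    obtain ⟨h1, h2⟩ := hS
    have hPS : P ∉ S := fun h => (Finset.mem_erase.1 (h1 h)).1 rfl
    have hS : S ⊆ D.T := fun Q hQ => (Finset.mem_erase.1 (h1 hQ)).2
    refine ⟨fk f, ⟨f, hf, rfl⟩, S.map ple, ?_, ?_, ?_⟩
    · rw [hT, half_iff', Finset.card_map]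
      exact ⟨S, hS, h2, rfl⟩
    · rwa [pl_mem]
    · rw [map_sr, ← hpr S hS]
      congr 1
      unfold pr
      rw [Finset.prod_insert hPS]
      rfl

theorem half_ncard {T : Finset (Pl v)} (p' : Finset (ValuationSubring K) → Prop)
    (p : Finset (Pl v) → Prop) (h : ∀ S ∈ Pool.PRM.Sl T, p' (S.map ple) ↔ p S) :
    {S | Half ((T.map ple).card / 2) (T.map ple) S ∧ p' S}.ncard = {S | S ∈ Pool.PRM.Sl T ∧ p S}.ncard := by
  have h1 : {S | Half ((T.map ple).card / 2) (T.map ple) S ∧ p' S} =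
      (fun S : Finset (Pl v) => S.map ple) '' {S | S ∈ Pool.PRM.Sl T ∧ p S} := by
    ext S'
    constructor
    · rintro ⟨h2, h3⟩
      obtain ⟨S, hS, rfl⟩ := half_iff.1 h2
      exact ⟨S, ⟨hS, (h S hS).1 h3⟩, rfl⟩
    · rintro ⟨S, ⟨hS, h3⟩, rfl⟩
      exact ⟨half_iff.2 ⟨S, hS, rfl⟩, (h S hS).2 h3⟩
  rw [h1, Set.ncard_image_of_injective _ (Finset.map_injective ple)]

theorem half_card (T : Finset (Pl v)) :
    {S | Half ((T.map ple).card / 2) (T.map ple) S}.ncard = (Pool.PRM.Sl T).card := by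
  have h1 : {S | Half ((T.map ple).card / 2) (T.map ple) S} =
      (fun S : Finset (Pl v) => S.map ple) '' (Pool.PRM.Sl T : Set (Finset (Pl v))) := by
    ext S'
    constructor
    · intro h2
      obtain ⟨S, hS, rfl⟩ := half_iff.1 h2
      exact ⟨S, hS, rfl⟩
    · rintro ⟨S, hS, rfl⟩
      exact half_iff.2 ⟨S, hS, rfl⟩
  rw [h1, Set.ncard_image_of_injective _ (Finset.map_injective ple), Set.ncard_coe_finset]

theorem lawT_iff {D' : Data K} {D : Pool.PRM.Data v} (hT : D'.T = D.T.map ple)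
    {d : Pl v → Reg v} {d' : ValuationSubring K → K}
    (hd : ∀ P ∈ D.T, (d P : K) = d' (pl P)) (ε : ℝ) (f : (Reg v)[X]) :
    LawT ε D' d' (fk f) ↔ Pool.PRM.LawT ε D d f := by
  have h0 : ∀ S ∈ Pool.PRM.Sl D.T, nSel (tw d' (S.map ple) (fk f)) =
      (Pool.PRM.Sel (Pool.PRM.tw (pr d S) f)).ncard := by
    intro S hS
    rw [nSel_eq, tw_eq hd (sl_sub hS)]
  have h1 : (∀ S', Half (D'.T.card / 2) D'.T S' → ∃ r : ℕ, nSel (tw d' S' (fk f)) = 2 ^ r) ↔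
      ∀ S ∈ Pool.PRM.Sl D.T, (Pool.PRM.Sel (Pool.PRM.tw (pr d S) f)).Finite ∧
        ∃ r : ℕ, (Pool.PRM.Sel (Pool.PRM.tw (pr d S) f)).ncard = 2 ^ r := by
    rw [hT]
    constructor
    · intro h S hS
      obtain ⟨r, hr⟩ := h _ (half_iff.2 ⟨S, hS, rfl⟩)
      rw [h0 S hS] at hr
      exact ⟨Set.finite_of_ncard_pos (by rw [hr]; positivity), r, hr⟩
    · intro h S' hS'
      obtain ⟨S, hS, rfl⟩ := half_iff.1 hS'
      obtain ⟨-, r, hr⟩ := h S hS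
      exact ⟨r, by rw [h0 S hS, hr]⟩
  have h2 : {S | Half (D'.T.card / 2) D'.T S ∧ ∃ r : ℕ, Even r ∧ nSel (tw d' S (fk f)) = 2 ^ r}.ncard =
      {S | S ∈ Pool.PRM.Sl D.T ∧ ∃ r : ℕ, Even r ∧
        (Pool.PRM.Sel (Pool.PRM.tw (pr d S) f)).ncard = 2 ^ r}.ncard := by
    rw [hT]
    exact half_ncard (fun S => ∃ r : ℕ, Even r ∧ nSel (tw d' S (fk f)) = 2 ^ r) _
      fun S hS => by simp only [h0 S hS]
  have h3 : ∀ r : ℕ, {S | Half (D'.T.card / 2) D'.T S ∧ nSel (tw d' S (fk f)) = 2 ^ r}.ncard =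
      {S | S ∈ Pool.PRM.Sl D.T ∧
        (Pool.PRM.Sel (Pool.PRM.tw (pr d S) f)).ncard = 2 ^ r}.ncard := by
    intro r
    rw [hT]
    exact half_ncard (fun S => nSel (tw d' S (fk f)) = 2 ^ r) _
      fun S hS => by simp only [h0 S hS]
  have h4 : {S | Half (D'.T.card / 2) D'.T S}.ncard = (Pool.PRM.Sl D.T).card := by
    rw [hT]
    exact half_card _
  unfold LawT Pool.PRM.LawT
  rw [h1, h2, h4]
  simp only [h3, pr_eq]

/-- The law. -/
theorem law_of {π : K} (hπ : Unif v π) (hv : ∃ a : Reg v, (a : K) ∉ v) {g : ℕ} {D' : Data K}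
    {D : Pool.PRM.Data v} (h : Rel g D' D) {d : Pl v → Reg v} {d' : ValuationSubring K → K}
    (hd : ∀ P ∈ D.T, (d P : K) = d' (pl P)) {ε : ℝ} {E : ℕ}
    (hl : Pool.PRM.Law π g ε D d E) : Law v π g ε D' d' E := by
  obtain ⟨c, hc, h₀, hh⟩ := hl
  have hp : ∀ {Z Hs : Set K[X]}, Pool.PRM.PosL g ε c Z Hs →
      Pos c Z Hs ∧ (LawZ ε Z ∧ (g = 1 → RankZ ε Z)) := by
    rintro Z Hs ⟨a1, a2, a3⟩
    exact ⟨a1, (lawZ_iff ε Z).2 a2, fun hg => rankZ_of (a3 hg)⟩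
  refine ⟨⟨c, hc, h₀, fun H hH => ⟨?_, fun hN hT => ?_⟩⟩, h₀, fun H hH => ?_⟩
  · rw [fam_eq hπ hv h H, Tw_eq h.T hd, hyp_eq]
    exact hp (hh H hH).1
  · rw [fam_eq hπ hv h H, fk_zero, Tw_eq h.T hd, hyp_eq]
    exact hp ((hh H hH).2.2 hN ((tr0_iff h).1 hT))
  · have hfam := fam_eq hπ hv h H
    have h4 : {f | f ∈ Fam v π g D' H ∧ ¬ LawT ε D' d' f} =
        fk '' {f | f ∈ Pool.PRM.Fam π g D H ∧ ¬ Pool.PRM.LawT ε D d f} := by
      rw [hfam]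
      ext q
      constructor
      · rintro ⟨⟨f, hf, rfl⟩, h5⟩
        exact ⟨f, ⟨hf, fun h6 => h5 ((lawT_iff h.T hd ε f).2 h6)⟩, rfl⟩
      · rintro ⟨f, ⟨hf, h5⟩, rfl⟩
        exact ⟨⟨f, hf, rfl⟩, fun h6 => h5 ((lawT_iff h.T hd ε f).1 h6)⟩
    rw [h4, hfam, Set.ncard_image_of_injective _ fk_inj, Set.ncard_image_of_injective _ fk_inj]
    exact (hh H hH).2.1

/-- Two elements. -/
theorem selTwo_of {P : Pl v} {f : K[X]} (h : Pool.PRM.SelTwo P f) : SelTwo (pl P) f := by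
  obtain ⟨h1, h2⟩ := h
  refine ⟨by rw [nSel_eq]; exact h1, fun p hp hs => ?_⟩
  obtain ⟨u, hu⟩ := cop_iff.1 hp.1
  obtain ⟨L, i, O, ι, h3, h4, h5⟩ := h2 u p
    ⟨u, p, rfl, hu.symm, (isSel_iff hu.symm).1 hp⟩ hu.symm hs
  exact ⟨L, i, O, ι, cpl_iff.2 h3, at_of P h4, h5⟩

/-- Many twists of one curve. -/
theorem rich_of {g : ℕ} {D' : Data K} {D : Pool.PRM.Data v} (h : Rel g D' D) {m : ℕ} {P : Pl v}
    {f : K[X]} (hr : Pool.PRM.Rich m D P f) : Rich m v D' (pl P) f := by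
  obtain ⟨t, h1, h2, h3, h4, h5⟩ := hr
  obtain ⟨t', ht'⟩ : ∃ t' : ℕ → K, ∀ i (hi : i < m + 1), t' i = t ⟨i, hi⟩ :=
    ⟨fun i => if hi : i < m + 1 then t ⟨i, hi⟩ else 1, fun i hi => dif_pos hi⟩
  refine ⟨t', fun i hi => ?_, fun i hi w' hw1 hw2 hw3 => ?_, fun i hi hi0 => ?_,
    fun I hI => ?_⟩
  · rw [ht' i (by omega)]
    exact h1 _
  · rw [ht' i (by omega)]
    by_cases hw : w' = ⊤
    · rw [hw]
      exact ⟨ValuationSubring.mem_top _, ValuationSubring.mem_top _⟩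
    · obtain ⟨Q, rfl⟩ := pl_ex hw hw1
      rw [h.T, pl_mem] at hw2
      rw [h.T', pl_mem] at hw3
      exact ordZ_of Q (h2 _ Q hw2 hw3)
  · rw [ht' i (by omega)]
    exact ordZ_of P (h3 _ fun h6 => hi0 (congrArg Fin.val h6))
  · obtain ⟨J, hJ⟩ : ∃ J : Finset (Fin (m + 1)), I = J.map Fin.valEmbedding := by
      refine ⟨Finset.univ.filter fun i : Fin (m + 1) => (i : ℕ) ∈ I, ?_⟩
      ext i
      rw [Finset.mem_map]
      constructor
      · intro hi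
        refine ⟨⟨i, Finset.mem_range.1 (hI hi)⟩, ?_, rfl⟩
        rw [Finset.mem_filter]
        exact ⟨Finset.mem_univ _, hi⟩
      · rintro ⟨j, hj, rfl⟩
        exact (Finset.mem_filter.1 hj).2
    have hprod : ∏ i ∈ I, t' i = ∏ i ∈ J, t i := by
      rw [hJ, Finset.prod_map]
      exact Finset.prod_congr rfl fun i _ => ht' _ i.2
    have h0 : 0 ∈ I ↔ (0 : Fin (m + 1)) ∈ J := by
      rw [hJ, Finset.mem_map]
      constructor
      · rintro ⟨j, hj, hj0⟩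
        have : j = 0 := Fin.ext hj0
        rwa [this] at hj
      · intro hj
        exact ⟨0, hj, rfl⟩
    rw [hprod]
    refine ⟨fun hne => h4 J ?_, fun hi => ?_, fun hi => ?_⟩
    · rw [hJ, Finset.map_nonempty] at hne
      exact hne
    · rw [nSel_eq]
      exact (h5 J).1 (h0.1 hi)
    · exact selTwo_of ((h5 J).2 fun h6 => hi (h0.2 h6))

/-- Many twists. -/
theorem multi_of {π : K} (hπ : Unif v π) (hv : ∃ a : Reg v, (a : K) ∉ v) {m g : ℕ} {D' : Data K}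
    {D : Pool.PRM.Data v} (h : Rel g D' D) {d : Pl v → Reg v} {d' : ValuationSubring K → K}
    (hd : ∀ P ∈ D.T, (d P : K) = d' (pl P)) {ε : ℝ} {E : ℕ} {P : Pl v} (hP : P ∈ D.T)
    (hl : Pool.PRM.Multi m π g ε D P d E) : Multi m v π g ε D' (pl P) d' E := by
  obtain ⟨c, hc, h₀, hh⟩ := hl
  have hp : ∀ {Z Hs : Set K[X]}, Pool.PRM.PosI m g D P ε c Z Hs →
      Pos c Z Hs ∧ ((0.2097 - ε) * Z.ncard ≤ {f | f ∈ Z ∧ Rich m v D' (pl P) f}.ncard ∧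
        (g = 1 → ∀ f ∈ Z, ∀ t : K, t ≠ 0 → MW (f.scaleRoots t))) := by
    rintro Z Hs ⟨a1, a2, a3⟩
    refine ⟨a1, a2.trans ?_, fun hg f hf t ht => mw_of (a3 hg f hf t ht)⟩
    rw [Nat.cast_le]
    exact Set.ncard_le_ncard (fun f hf => ⟨hf.1, rich_of h hf.2⟩)
      ((a1.2.1.subset a1.1).subset fun f hf => hf.1)
  refine ⟨c, hc, h₀, fun H hH => ⟨?_, fun hN hT => ?_⟩⟩
  · rw [fam_eq hπ hv h H, TwI_eq h.T hd hP, hyp_eq]
    exact hp (hh H hH).1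
  · rw [fam_eq hπ hv h H, fk_zero, TwI_eq h.T hd hP, hyp_eq]
    exact hp ((hh H hH).2 hN ((tr0_iff h).1 hT))

/-- The twisting elements. -/
theorem tws_of (hv : ∃ a : Reg v, (a : K) ∉ v) {π : K} {g : ℕ} {D' : Data K}
    {D : Pool.PRM.Data v} (h : Rel g D' D) {d' : ValuationSubring K → K} {E : ℕ}
    (ht : Tws v π D' d' E) : ∃ d : Pl v → Reg v, (∀ P ∈ D.T, (d P : K) = d' (pl P)) ∧
      Pool.PRM.Tws D d ∧ ∀ S ⊆ D.T, ((pr d S : Reg v) : K) * π ^ E ∈ v := by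
  obtain ⟨h1, h2⟩ := ht
  have hex : ∀ P : Pl v, ∃ a : Reg v, P ∈ D.T → (a : K) = d' (pl P) := by
    intro P
    by_cases hP : P ∈ D.T
    · exact ⟨⟨d' (pl P), (h1 (pl P) (by rw [h.T]; exact pl_mem.2 hP)).2.1⟩, fun _ => rfl⟩
    · exact ⟨0, fun h3 => (hP h3).elim⟩
  choose d hd using hex
  refine ⟨d, hd, fun P hP => ?_, fun S hS => ?_⟩
  · obtain ⟨h3, -, h4⟩ := h1 (pl P) (by rw [h.T]; exact pl_mem.2 hP)
    rw [← hd P hP] at h3 h4
    obtain ⟨h5, h6, h7⟩ := (unif_iff P (d P)).1 h3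
    refine ⟨h5, ⟨h6, h7⟩, fun Q hQ hQ' => ?_⟩
    rw [← inv_pl Q h5]
    refine h4 _ (pl_ne hv Q) (fun h8 => hQ (pl_inj h8)) ?_
    rw [h.T', pl_mem]
    exact hQ'
  · rw [pr_map hd hS]
    refine h2 _ ?_
    rw [h.T]
    exact Finset.map_subset_map.2 hS

theorem tws_ex {π : K} {g : ℕ} {D' : Data K}
    {D : Pool.PRM.Data v} (h : Rel g D' D) {d : Pl v → Reg v} {E : ℕ} (ht : Pool.PRM.Tws D d)
    (hE : ∀ S ⊆ D.T, ((pr d S : Reg v) : K) * π ^ E ∈ v) :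
    ∃ d' : ValuationSubring K → K, Tws v π D' d' E := by
  obtain ⟨d', hd'⟩ : ∃ d' : ValuationSubring K → K, ∀ P : Pl v, d' (pl P) = (d P : K) :=
    ⟨Function.extend pl (fun P => (d P : K)) 0, fun P => pl_inj.extend_apply _ _ P⟩
  refine ⟨d', fun w hw => ?_, fun S' hS' => ?_⟩
  · rw [h.T] at hw
    obtain ⟨P, hP, rfl⟩ := mem_ple.1 hw
    obtain ⟨h1, h2, h3⟩ := ht P hP
    rw [hd' P]
    refine ⟨(unif_iff P (d P)).2 ⟨h1, h2⟩, (d P).2, fun w' hw1 hw2 hw3 => ?_⟩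
    by_cases hw4 : w' = ⊤
    · rw [hw4]
      exact ValuationSubring.mem_top _
    · obtain ⟨Q, rfl⟩ := pl_ex hw4 hw1
      rw [h.T', pl_mem] at hw3
      exact (inv_pl Q h1).2 (h3 Q (fun h8 => hw2 (by rw [h8])) hw3)
  · rw [h.T] at hS'
    obtain ⟨S, hS, rfl⟩ := Finset.subset_map_iff.1 hS'
    rw [← pr_map (T := D.T) (d := d) (fun P _ => (hd' P).symm) hS]
    exact hE S hS

/-- The main statement. -/
theorem main_of {π : K} (hπ : Unif v π) (hv : ∃ a : Reg v, (a : K) ∉ v) {g : ℕ}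
    (hm : Pool.PRM.Main v π g) : Main v π g := by
  obtain ⟨A, hA⟩ := hm
  have hpl : ∀ (T : Finset (Pl v)), ∀ w ∈ T.map ple, w ≠ ⊤ ∧ w ≠ v := by
    intro T w hw
    obtain ⟨P, -, rfl⟩ := mem_ple.1 hw
    exact ⟨pl_top P, pl_ne hv P⟩
  refine ⟨A.map ple, hpl A, fun T₁ hT₁ hAT m ε hε => ?_⟩
  obtain ⟨T', rfl⟩ := ex_fin hT₁
  obtain ⟨k₀, hk₀⟩ := hA T' (Finset.map_subset_map.1 hAT) m ε hε
  refine ⟨k₀, fun k hk => ?_⟩
  obtain ⟨b, ⟨D₀, h1, h2, h3, h4, h5⟩, hall⟩ := hk₀ k hk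
  refine ⟨b, ?_, ?_⟩
  · obtain ⟨D', hR, hOk⟩ := ex_data' hv h1
    refine ⟨D', ⟨hOk, ?_, ?_, ?_⟩, fun hN => (tr0_iff hR).2 (h5 hN)⟩
    · rw [hR.T', h2]
    · rw [hR.T, Finset.card_map, h3]
    · intro w hw
      rw [hR.T] at hw
      obtain ⟨P, hP, rfl⟩ := mem_ple.1 hw
      rw [nm_eq]
      exact h4 P hP
  · rintro D' ⟨a1, a2, a3, a4⟩
    obtain ⟨D, hR, hOk⟩ := ex_data a1
    have b2 : D.T' = T' := by
      rw [hR.T'] at a2
      exact Finset.map_injective _ a2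
    have b3 : D.T.card = k := by
      rw [hR.T, Finset.card_map] at a3
      exact a3
    have b4 : ∀ P ∈ D.T, b < Pool.PRM.Nm P := by
      intro P hP
      rw [← nm_eq]
      exact a4 _ (by rw [hR.T]; exact pl_mem.2 hP)
    obtain ⟨⟨d, E, hd, hE⟩, hlaw⟩ := hall D hOk b2 b3 b4
    refine ⟨?_, fun d' E' hd' => ?_⟩
    · obtain ⟨d', hd'⟩ := tws_ex (π := π) hR hd hE
      exact ⟨d', E, hd'⟩
    · obtain ⟨d₁, hd₁, hd₂, hE₁⟩ := tws_of hv hR hd'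
      obtain ⟨h6, h7⟩ := hlaw d₁ E' hd₂ hE₁
      refine ⟨fun ho => law_of hπ hv hR hd₁ (h6 ho), fun he w hw => ?_⟩
      rw [hR.T] at hw
      obtain ⟨P, hP, rfl⟩ := mem_ple.1 hw
      exact multi_of hπ hv hR hd₁ hP (h7 he P hP)

end P

end Pool.PRV
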