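import Pool.Agent.H13.PRV.Plc

/-!
# PRV: singular points, orders, completions, the place `v`
-/

set_option autoImplicit false

namespace Pool.PRV

open Polynomial IsDedekindDomain
open Pool.PRM (Reg Pl Zer md OkP Tws pr)

section W

variable {K : Type} [Field K] {w : ValuationSubring K}

theorem van_congr {x y : K} (h : Van w (x - y)) : Van w x ↔ Van w y := by
  rw [van_iff] at h ⊢
  rw [van_iff]
  constructor
  · intro hx
    have h1 : y = x - (x - y) := by ring
    rw [h1]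
    exact Valuation.map_sub_lt _ hx h
  · intro hy
    have h1 : x = (x - y) + y := by ring
    rw [h1]
    exact Valuation.map_add_lt _ h hy

theorem cong_left {p p' q : K[X]} (h : Cong w p p') : Cong w q p ↔ Cong w q p' :=
  ⟨fun h1 => cong_trans h1 h, fun h1 => cong_trans h1 (cong_symm h)⟩

theorem van_div {ϖ a : K} (hϖ : Unif w ϖ) (ha : Van w a) : a / ϖ ∈ w := by
  rcases ha with rfl | h
  · rw [zero_div]
    exact w.zero_mem
  · exact hϖ.2.2.2 a (van_mem (Or.inr h)) h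

end W

section P

variable {K : Type} [Field K] {v : ValuationSubring K}

attribute [local instance] Pool.PRM.alg

variable [IsDedekindDomain (Reg v)] [IsFractionRing (Reg v) K]

theorem ex_unif (P : Pl v) : ∃ ϖ : Reg v, Unif (pl P) (ϖ : K) := by
  obtain ⟨z, hz, hz'⟩ := SetLike.exists_of_lt (Ideal.pow_right_strictAnti P.asIdeal
    P.ne_bot P.isPrime.ne_top (show 1 < 2 by norm_num))
  have hz1 : z ∈ P.asIdeal ^ 1 := hz
  rw [pow_one] at hz1
  exact ⟨z, (unif_iff P z).2 ⟨fun h => hz' (h ▸ Ideal.zero_mem _), hz1, hz'⟩⟩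

theorem sq_div (P : Pl v) {ϖ : K} (hϖ : Unif (pl P) ϖ) {c : Reg v} (hc : c ∈ P.asIdeal ^ 2) :
    (c : K) / ϖ ^ 2 ∈ pl P := by
  rw [pow_two] at hc
  refine Submodule.mul_induction_on hc ?_ ?_
  · intro x hx y hy
    have h1 : ((x * y : Reg v) : K) / ϖ ^ 2 = ((x : K) / ϖ) * ((y : K) / ϖ) := by
      show (x : K) * (y : K) / ϖ ^ 2 = _
      have := hϖ.1
      field_simp
    rw [h1]
    exact (pl P).mul_mem _ _ (van_div hϖ ((van_pl P x).2 hx)) (van_div hϖ ((van_pl P y).2 hy))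
  · intro x y hx hy
    have h1 : ((x + y : Reg v) : K) / ϖ ^ 2 = (x : K) / ϖ ^ 2 + (y : K) / ϖ ^ 2 := by
      show ((x : K) + (y : K)) / ϖ ^ 2 = _
      rw [add_div]
    rw [h1]
    exact (pl P).add_mem _ _ hx hy

theorem sing_of (P : Pl v) {f : (Reg v)[X]} (h : Pool.PRM.Sing P.asIdeal f) :
    Sing (pl P) (fk f) := by
  obtain ⟨γ, a, b, c, hγ, hirr, hb, hc, hf⟩ := h
  obtain ⟨ϖ, hϖ⟩ := ex_unif P
  have hϖ0 := hϖ.1
  refine ⟨ϖ, γ.natDegree, fk γ, fk a, C (ϖ : K)⁻¹ * fk b, C ((ϖ : K) ^ 2)⁻¹ * fk c, hϖ,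
    okP_irr P ⟨hγ, rfl, hirr⟩, fk_int P a, ?_, ?_, ?_⟩
  · intro i
    rw [coeff_C_mul, coeff_map, mul_comm, ← div_eq_mul_inv]
    exact van_div hϖ ((van_pl P _).2 (hb i))
  · intro i
    rw [coeff_C_mul, coeff_map, mul_comm, ← div_eq_mul_inv]
    exact sq_div P hϖ (hc i)
  · have h1 : C (ϖ : K) * fk γ * (C (ϖ : K)⁻¹ * fk b) = fk γ * fk b := by
      have h2 : C (ϖ : K) * C (ϖ : K)⁻¹ = (1 : K[X]) := by
        rw [← C_mul, mul_inv_cancel₀ hϖ0, C_1]
      linear_combination (fk γ * fk b) * h2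
    have h3 : C ((ϖ : K) ^ 2) * (C ((ϖ : K) ^ 2)⁻¹ * fk c) = fk c := by
      have h2 : C ((ϖ : K) ^ 2) * C ((ϖ : K) ^ 2)⁻¹ = (1 : K[X]) := by
        rw [← C_mul, mul_inv_cancel₀ (pow_ne_zero 2 hϖ0), C_1]
      linear_combination (fk c) * h2
    rw [h1, h3, hf]
    simp only [fk, Polynomial.map_add, Polynomial.map_mul, Polynomial.map_pow]

theorem sing_iff (P : Pl v) (f : (Reg v)[X]) :
    Sing (pl P) (fk f) ↔ Pool.PRM.Sing P.asIdeal f := by
  refine ⟨fun h => ?_, sing_of P⟩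
  by_contra hf
  exact not_sing (Pool.STR.regV_of Pool.T1.zval P f hf) h

theorem ordZ_of (P : Pl v) {t : K} (h : Pool.PRM.OrdZ P t) : t ∈ pl P ∧ t⁻¹ ∈ pl P := by
  have hmem := Pool.STR.vp_mem (K := K) Pool.T1.zval P
  obtain ⟨x, y, hx, hy, hxy⟩ := h
  have hx0 : (x : K) ≠ 0 := fun h => hx (by
    rw [show x = 0 from Subtype.ext h]
    exact Ideal.zero_mem _)
  have ht : t ≠ 0 := by
    rintro rfl
    rw [zero_mul] at hxy
    exact hx0 hxy.symm
  refine ⟨(hmem t).2 ⟨y, hy, x, ?_⟩, (hmem _).2 ⟨x, hx, y, ?_⟩⟩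
  · show (y : K) * t = (x : K)
    rw [← hxy, mul_comm]
  · show (x : K) * t⁻¹ = (y : K)
    rw [← hxy]
    field_simp

theorem at_of (P : Pl v) {L : Type} [Field L] {O : ValuationSubring L} {ι : K →+* L}
    (h : Pool.PRM.At P O ι) : O.comap ι = pl P := by
  have hmem := Pool.STR.vp_mem (K := K) Pool.T1.zval P
  have hm1 : ∀ m : Reg v, m ∉ P.asIdeal → O.valuation (ι (m : K)) = 1 := by
    intro m hm
    obtain ⟨h1, h2⟩ := h m
    refine le_antisymm ((ValuationSubring.valuation_le_one_iff _ _).2 h1) ?_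
    exact not_lt.1 fun h3 => hm (h2.2 h3)
  have key : ∀ x : K, ∀ m a : Reg v, m ∉ P.asIdeal → (m : K) * x = (a : K) →
      O.valuation (ι x) = O.valuation (ι (a : K)) := by
    intro x m a hm hx
    rw [← hx, map_mul, map_mul, hm1 m hm, one_mul]
  ext x
  rw [ValuationSubring.mem_comap]
  constructor
  · intro hx
    by_contra hx'
    have hx0 : x ≠ 0 := by
      rintro rfl
      exact hx' (pl P).zero_mem
    have h2 : Van (pl P) x⁻¹ := Or.inr (by rwa [inv_inv])
    obtain ⟨m, hm, a, ha⟩ := (hmem _).1 (van_mem h2)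
    have ha' : (m : K) * x⁻¹ = (a : K) := ha
    have h3 : a ∈ P.asIdeal := by
      rw [← van_pl, ← ha', van_iff, map_mul]
      have h4 : (pl P).valuation (m : K) ≤ 1 :=
        (ValuationSubring.valuation_le_one_iff _ _).2 (reg_pl P m)
      exact lt_of_le_of_lt (mul_le_of_le_one_left' h4) (van_iff.1 h2)
    have h5 : O.valuation (ι x⁻¹) < 1 := by
      rw [key x⁻¹ m a hm ha']
      exact (h a).2.1 h3
    rw [← ValuationSubring.valuation_le_one_iff] at hx
    rw [map_inv₀, map_inv₀] at h5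
    have h6 : O.valuation (ι x) ≠ 0 := by
      rw [Valuation.ne_zero_iff]
      exact (map_ne_zero ι).2 hx0
    rw [inv_lt_one₀ (zero_lt_iff.2 h6)] at h5
    exact absurd hx (not_le.2 h5)
  · intro hx
    obtain ⟨m, hm, a, ha⟩ := (hmem x).1 hx
    rw [← ValuationSubring.valuation_le_one_iff, key x m a hm ha]
    exact (ValuationSubring.valuation_le_one_iff _ _).2 (h a).1

theorem inv_pl (P : Pl v) {a : Reg v} (ha : a ≠ 0) : (a : K)⁻¹ ∈ pl P ↔ a ∉ P.asIdeal := by
  rw [← van_pl P a]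
  unfold Van
  have h1 : (a : K) ≠ 0 := fun h => ha (Subtype.ext h)
  simp [h1]

end P

/-! ### The place `v` -/

section V

variable {K : Type} [Field K] {v : ValuationSubring K}

theorem pole_iff {π : K} (hπ : Unif v π) {a : K} (ha : ∀ w : ValuationSubring K, w ≠ v → a ∈ w)
    (m : ℕ) : PoleV v m a ↔ a * π ^ m ∈ v := by
  constructor
  · intro h
    exact h.2 π hπ.2.1 hπ.2.2.1
  · intro h
    refine ⟨ha, fun ϖ h1 h2 => ?_⟩
    have h3 : ϖ / π ∈ v := hπ.2.2.2 ϖ h1 h2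
    have h4 : a * ϖ ^ m = (a * π ^ m) * (ϖ / π) ^ m := by
      rw [div_pow]
      have := pow_ne_zero m hπ.1
      field_simp
    rw [h4]
    exact v.mul_mem _ _ h (pow_mem h3 m)

theorem reg_mem {f : K[X]} {N : ℕ} (hN : f.natDegree = N)
    (h : ∀ i ≤ N, ∀ w : ValuationSubring K, w ≠ v → f.coeff (N - i) ∈ w) (n : ℕ) :
    f.coeff n ∈ Reg v := by
  intro w hw
  by_cases hn : n ≤ N
  · have h1 := h (N - n) (Nat.sub_le _ _) w hw
    rwa [Nat.sub_sub_self hn] at h1
  · rw [coeff_eq_zero_of_natDegree_lt (by omega)]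
    exact w.zero_mem

theorem fk_ex {f : K[X]} (h : ∀ n, f.coeff n ∈ Reg v) : ∃ q : (Reg v)[X], fk q = f := by
  have h1 : f ∈ Polynomial.lifts (Reg v).subtype := by
    rw [Polynomial.lifts_iff_coeff_lifts]
    intro n
    exact ⟨⟨f.coeff n, h n⟩, rfl⟩
  exact h1

theorem fk_inj : Function.Injective (fk : (Reg v)[X] → K[X]) :=
  Polynomial.map_injective _ Subtype.val_injective

theorem fk_monic {q : (Reg v)[X]} : (fk q).Monic ↔ q.Monic :=
  ⟨fun h => Polynomial.monic_of_injective Subtype.val_injective h, fun h => h.map _⟩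

theorem fk_deg (q : (Reg v)[X]) : (fk q).natDegree = q.natDegree :=
  Polynomial.natDegree_map_eq_of_injective Subtype.val_injective q

theorem top_iff {π : K} {g h : ℕ} {p : (IsLocalRing.ResidueField v)[X]} {t₀ : v[X]}
    (ht : t₀.map (IsLocalRing.residue v) = p) (htd : (t₀.map (algebraMap v K)).natDegree ≤ 2 * g + 1)
    {f : (Reg v)[X]} (hfm : f.Monic) (hfd : f.natDegree = 2 * g + 1) :
    Pool.PRM.Top π g h p f ↔ Cong v ((fk f).scaleRoots (π ^ h)) (t₀.map (algebraMap v K)) := by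
  have hco : ∀ i ≤ 2 * g + 1, ((fk f).scaleRoots (π ^ h)).coeff (2 * g + 1 - i) =
      (f.coeff (2 * g + 1 - i) : K) * π ^ (i * h) := by
    intro i hi
    rw [coeff_scaleRoots, fk_deg, hfd, coeff_map, Nat.sub_sub_self hi, ← pow_mul, mul_comm h i]
    rfl
  constructor
  · rintro ⟨⟨-, -, h3⟩, h4⟩ n
    by_cases hn : n ≤ 2 * g + 1
    · obtain ⟨i, hi, rfl⟩ : ∃ i ≤ 2 * g + 1, n = 2 * g + 1 - i :=
        ⟨2 * g + 1 - n, Nat.sub_le _ _, by omega⟩
      rw [hco i hi, coeff_map]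
      have h5 := h4 i hi ⟨_, h3 i hi⟩ rfl
      have h6 : (f.coeff (2 * g + 1 - i) : K) * π ^ (i * h) -
          algebraMap v K (t₀.coeff (2 * g + 1 - i)) =
          (((⟨_, h3 i hi⟩ : v) - t₀.coeff (2 * g + 1 - i) : v) : K) := rfl
      rw [h6, van_res, map_sub, h5, ← ht, coeff_map, sub_self]
    · have h1 : ((fk f).scaleRoots (π ^ h)).coeff n = 0 := by
        apply coeff_eq_zero_of_natDegree_lt
        rw [natDegree_scaleRoots, fk_deg, hfd]
        omega
      have h2 : (t₀.map (algebraMap v K)).coeff n = 0 :=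
        coeff_eq_zero_of_natDegree_lt (by omega)
      rw [h1, h2, sub_zero]
      exact Or.inl rfl
  · intro hc
    have hint := cong_int hc (int_iff.2 ⟨t₀, rfl⟩)
    have h3 : ∀ i ≤ 2 * g + 1, (f.coeff (2 * g + 1 - i) : K) * π ^ (i * h) ∈ v := by
      intro i hi
      rw [← hco i hi]
      exact hint _
    refine ⟨⟨hfm, hfd, h3⟩, ?_⟩
    intro i hi z hz
    have h4 := hc (2 * g + 1 - i)
    rw [hco i hi, ← hz, coeff_map] at h4
    have h6 : (z : K) - algebraMap v K (t₀.coeff (2 * g + 1 - i)) =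
        ((z - t₀.coeff (2 * g + 1 - i) : v) : K) := rfl
    rw [h6, van_res, map_sub, sub_eq_zero] at h4
    rw [h4, ← ht, coeff_map]

end V

end Pool.PRV
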