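import Pool.Agent.H13.PRV.Sel
import Pool.Agent.H79.PRM.Bridge
import Pool.Agent.H96.STR.VPX
import Pool.Agent.H40.T1.ZVAL
import Pool.Agent.H96.T1.ZIRV

/-!
# PRV: places and primes
-/

set_option autoImplicit false

namespace Pool.PRV

open Polynomial IsDedekindDomain
open Pool.PRM (Reg Pl Zer md OkP Tws pr)

/-! ### One valuation ring -/

section W

variable {K : Type} [Field K] {w : ValuationSubring K}

theorem van_iff {a : K} : Van w a ↔ w.valuation a < 1 := by
  unfold Van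
  by_cases ha : a = 0
  · simp [ha]
  · have h1 : w.valuation a ≠ 0 := (Valuation.ne_zero_iff _).2 ha
    rw [← ValuationSubring.valuation_le_one_iff, map_inv₀, not_le,
      one_lt_inv₀ (zero_lt_iff.2 h1)]
    simp [ha]

theorem van_mem {a : K} (h : Van w a) : a ∈ w := by
  rw [← ValuationSubring.valuation_le_one_iff]
  exact (van_iff.1 h).le

theorem van_res (a : w) : Van w (a : K) ↔ IsLocalRing.residue w a = 0 := by
  rw [van_iff, IsLocalRing.residue_eq_zero_iff]
  exact (ValuationSubring.valuation_lt_one_iff w a).symm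

theorem int_iff {p : K[X]} : Coef w p ↔ ∃ p₀ : w[X], p₀.map (algebraMap w K) = p := by
  constructor
  · intro h
    have h1 : p ∈ Polynomial.lifts (algebraMap w K) := by
      rw [Polynomial.lifts_iff_coeff_lifts]
      intro n
      exact ⟨⟨p.coeff n, h n⟩, rfl⟩
    exact h1
  · rintro ⟨p₀, rfl⟩ i
    rw [coeff_map]
    exact (p₀.coeff i).2

theorem cong_iff (p₀ q₀ : w[X]) :
    Cong w (p₀.map (algebraMap w K)) (q₀.map (algebraMap w K)) ↔
      p₀.map (IsLocalRing.residue w) = q₀.map (IsLocalRing.residue w) := by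
  rw [← sub_eq_zero, ← Polynomial.map_sub, Polynomial.ext_iff]
  refine forall_congr' fun i => ?_
  rw [coeff_map, coeff_map, coeff_map, coeff_zero, coeff_sub, ← van_res]
  exact Iff.rfl

theorem cong_int {p q : K[X]} (h : Cong w p q) (hq : Coef w q) : Coef w p := by
  intro i
  have h1 := van_mem (h i)
  have h2 : p.coeff i = (p.coeff i - q.coeff i) + q.coeff i := by ring
  rw [h2]
  exact w.add_mem _ _ h1 (hq i)

theorem cong_symm {p q : K[X]} (h : Cong w p q) : Cong w q p := by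
  intro i
  have h1 := h i
  rw [van_iff] at h1 ⊢
  rwa [← neg_sub, Valuation.map_neg]

theorem cong_trans {p q r : K[X]} (h : Cong w p q) (h' : Cong w q r) : Cong w p r := by
  intro i
  have h1 := h i
  have h2 := h' i
  rw [van_iff] at h1 h2 ⊢
  have h3 : p.coeff i - r.coeff i = (p.coeff i - q.coeff i) + (q.coeff i - r.coeff i) := by ring
  rw [h3]
  exact Valuation.map_add_lt _ h1 h2

theorem irr_int {n : ℕ} {p : K[X]} (h : Irr w n p) : Coef w p := by
  obtain ⟨-, -, p₀, rfl, -⟩ := h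
  exact int_iff.2 ⟨p₀, rfl⟩

/-- Where `RegV` holds there is no `Sing`. -/
theorem not_sing {f : K[X]} (h : Pool.STR.RegV w f) : ¬ Sing w f := by
  rintro ⟨ϖ, n, γ, a, b, c, hϖ, hγ, ha, hb, hc, hf⟩
  obtain ⟨f₀, hf₀, hreg⟩ := h
  obtain ⟨hγm, hγn, γ₀, rfl, hirr⟩ := hγ
  obtain ⟨a₀, rfl⟩ := int_iff.1 ha
  obtain ⟨b₀, rfl⟩ := int_iff.1 hb
  obtain ⟨c₀, rfl⟩ := int_iff.1 hc
  obtain ⟨ϖ₀, rfl⟩ : ∃ z : w, algebraMap w K z = ϖ := ⟨⟨ϖ, hϖ.2.1⟩, rfl⟩
  have hinj : Function.Injective (Polynomial.map (algebraMap w K)) :=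
    Polynomial.map_injective _ Subtype.val_injective
  have h1 : f₀ = γ₀ ^ 2 * a₀ + C ϖ₀ * γ₀ * b₀ + C (ϖ₀ ^ 2) * c₀ := by
    apply hinj
    rw [hf₀, hf]
    simp only [Polynomial.map_add, Polynomial.map_mul, Polynomial.map_pow, Polynomial.map_C,
      map_pow]
  obtain ⟨k, hk⟩ : ∃ k : w[X] →+* (IsLocalRing.ResidueField w)[X],
      k = Polynomial.mapRingHom (IsLocalRing.residue w) := ⟨_, rfl⟩
  have hks : Function.Surjective k := by
    rw [hk]
    exact Polynomial.map_surjective _ IsLocalRing.residue_surjective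
  have hmax : (Ideal.span {γ₀.map (IsLocalRing.residue w)}).IsMaximal :=
    PrincipalIdealRing.isMaximal_of_irreducible hirr
  have h2 : (Ideal.comap k (Ideal.span {γ₀.map (IsLocalRing.residue w)})).IsMaximal :=
    Ideal.comap_isMaximal_of_surjective k hks
  have h3 : ∀ z ∈ IsLocalRing.maximalIdeal w,
      C z ∈ Ideal.comap k (Ideal.span {γ₀.map (IsLocalRing.residue w)}) := by
    intro z hz
    rw [Ideal.mem_comap, hk]
    show Polynomial.map _ (C z) ∈ _
    rw [Polynomial.map_C, (IsLocalRing.residue_eq_zero_iff z).2 hz, C_0]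
    exact Ideal.zero_mem _
  have h4 : γ₀ ∈ Ideal.comap k (Ideal.span {γ₀.map (IsLocalRing.residue w)}) := by
    rw [Ideal.mem_comap, hk]
    exact Ideal.mem_span_singleton_self _
  have h5 : C ϖ₀ ∈ Ideal.comap k (Ideal.span {γ₀.map (IsLocalRing.residue w)}) := by
    apply h3
    rw [IsLocalRing.mem_maximalIdeal, mem_nonunits_iff]
    intro hu
    apply hϖ.2.2.1
    obtain ⟨y, hy⟩ := isUnit_iff_exists_inv.1 hu
    have h6 : algebraMap w K ϖ₀ * (y : K) = 1 := congrArg Subtype.val hy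
    rw [inv_eq_of_mul_eq_one_right h6]
    exact y.2
  refine hreg _ h2 h3 ?_
  rw [h1, pow_two (Ideal.comap _ _)]
  refine Ideal.add_mem _ (Ideal.add_mem _ ?_ ?_) ?_
  · rw [pow_two]
    exact Ideal.mul_mem_right _ _ (Ideal.mul_mem_mul h4 h4)
  · exact Ideal.mul_mem_right _ _ (Ideal.mul_mem_mul h5 h4)
  · rw [pow_two, C_mul]
    exact Ideal.mul_mem_right _ _ (Ideal.mul_mem_mul h5 h5)

end W

/-! ### The places different from `v` -/

section P

variable {K : Type} [Field K] {v : ValuationSubring K}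

attribute [local instance] Pool.PRM.alg

variable [IsDedekindDomain (Reg v)] [IsFractionRing (Reg v) K]

/-- The valuation ring of `P`. -/
noncomputable abbrev pl (P : Pl v) : ValuationSubring K := Pool.T1.vP K P

theorem pl_inj : Function.Injective (pl : Pl v → ValuationSubring K) :=
  (Pool.T1.zval (Reg v) K).2.2

theorem pl_ex {w : ValuationSubring K} (h1 : w ≠ ⊤) (h2 : w ≠ v) : ∃ P : Pl v, pl P = w := by
  obtain ⟨P, hP⟩ := (Pool.T1.zval (Reg v) K).1 w h1 fun a => a.2 w h2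
  exact ⟨P, hP.symm⟩

theorem pl_top (P : Pl v) : pl P ≠ ⊤ := ((Pool.T1.zval (Reg v) K).2.1 P).1

theorem reg_pl (P : Pl v) (a : Reg v) : (a : K) ∈ pl P :=
  ((Pool.T1.zval (Reg v) K).2.1 P).2.1 a

theorem pl_ne (hv : ∃ a : Reg v, (a : K) ∉ v) (P : Pl v) : pl P ≠ v := by
  rintro h
  obtain ⟨a, ha⟩ := hv
  have h1 := reg_pl P a
  rw [h] at h1
  exact ha h1

/-- A polynomial over `Reg v` as a polynomial over `K`. -/
noncomputable abbrev fk (q : (Reg v)[X]) : K[X] := q.map (Reg v).subtype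

/-- The ring `Reg v` in the valuation ring of `P`. -/
theorem vpj (P : Pl v) : ∃ (j : Reg v →+* pl P) (r : Reg v →+* IsLocalRing.ResidueField (pl P)),
    (∀ a, ((j a : pl P) : K) = (a : K)) ∧ r = (IsLocalRing.residue (pl P)).comp j ∧
    (∀ a, r a = 0 ↔ a ∈ P.asIdeal) ∧ Function.Surjective r ∧
    ∀ q : (Reg v)[X], (q.map j).map (algebraMap (pl P) K) = fk q := by
  obtain ⟨j, hj, hker, -, hsurj⟩ := Pool.STR.vpx (K := K) Pool.T1.zval P
  refine ⟨j, _, hj, rfl, hker, hsurj, fun q => ?_⟩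
  rw [Polynomial.map_map]
  congr 1
  exact RingHom.ext hj

theorem van_pl (P : Pl v) (a : Reg v) : Van (pl P) (a : K) ↔ a ∈ P.asIdeal := by
  obtain ⟨j, r, hj, hr, hker, -, -⟩ := vpj P
  rw [← hker, hr, ← hj, van_res]
  exact Iff.rfl

theorem zer_iff (P : Pl v) (q : (Reg v)[X]) : Zer P.asIdeal q ↔ Cong (pl P) (fk q) 0 := by
  refine forall_congr' fun i => ?_
  rw [coeff_zero, sub_zero, coeff_map]
  exact (van_pl P _).symm

theorem zer_sub (P : Pl v) (p q : (Reg v)[X]) :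
    Zer P.asIdeal (p - q) ↔ Cong (pl P) (fk p) (fk q) := by
  refine forall_congr' fun i => ?_
  rw [coeff_map, coeff_map, coeff_sub]
  exact (van_pl P _).symm

theorem fk_int (P : Pl v) (q : (Reg v)[X]) : Coef (pl P) (fk q) := by
  intro i
  rw [coeff_map]
  exact reg_pl P _

theorem irr_md (P : Pl v) (q : (Reg v)[X]) {p : K[X]} (h : Cong (pl P) p (fk q)) {n : ℕ}
    (hp : Irr (pl P) n p) : Irreducible (md P.asIdeal q) := by
  obtain ⟨j, r, hj, hr, hker, hsurj, hfk⟩ := vpj P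
  obtain ⟨-, -, p₀, rfl, hirr⟩ := hp
  rw [← hfk, cong_iff, Polynomial.map_map, ← hr] at h
  rw [h] at hirr
  exact (Pool.STR.irr_res r hker hsurj q).2 hirr

theorem okP_irr (P : Pl v) {n : ℕ} {q : (Reg v)[X]} (h : OkP n P.asIdeal q) :
    Irr (pl P) n (fk q) := by
  obtain ⟨j, r, hj, hr, hker, hsurj, hfk⟩ := vpj P
  obtain ⟨h1, h2, h3⟩ := h
  refine ⟨h1.map _, by rw [h1.natDegree_map, h2], q.map j, hfk q, ?_⟩
  rw [Polynomial.map_map, ← hr]
  exact (Pool.STR.irr_res r hker hsurj q).1 h3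

/-- Approximation of an element. -/
theorem apx (P : Pl v) {x : K} (hx : x ∈ pl P) : ∃ a : Reg v, Van (pl P) (x - a) := by
  obtain ⟨j, r, hj, hr, hker, hsurj, hfk⟩ := vpj P
  obtain ⟨a, ha⟩ := hsurj (IsLocalRing.residue (pl P) ⟨x, hx⟩)
  refine ⟨a, ?_⟩
  have h1 : x - (a : K) = (((⟨x, hx⟩ : pl P) - j a : pl P) : K) := by
    rw [← hj]
    rfl
  rw [h1, van_res, map_sub, ← ha, hr]
  exact sub_self _

/-- Approximation of a polynomial. -/
theorem apx_irr (P : Pl v) {n : ℕ} {p : K[X]} (hp : Irr (pl P) n p) :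
    ∃ q : (Reg v)[X], OkP n P.asIdeal q ∧ Cong (pl P) p (fk q) := by
  obtain ⟨j, r, hj, hr, hker, hsurj, hfk⟩ := vpj P
  obtain ⟨h1, h2, p₀, rfl, hirr⟩ := id hp
  have hinj : Function.Injective (algebraMap (pl P) K) := Subtype.val_injective
  have hp₀ : p₀.Monic := Polynomial.monic_of_injective hinj h1
  have hd : p₀.natDegree = n := by rw [← h2, Polynomial.natDegree_map_eq_of_injective hinj]
  have h3 : p₀.map (IsLocalRing.residue (pl P)) ∈ Polynomial.lifts r := by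
    obtain ⟨q, hq⟩ := Polynomial.map_surjective r hsurj (p₀.map (IsLocalRing.residue (pl P)))
    exact ⟨q, hq⟩
  obtain ⟨q, hq1, hq2, hq3⟩ :=
    Polynomial.lifts_and_natDegree_eq_and_monic h3 (hp₀.map (IsLocalRing.residue (pl P)))
  have h4 : Cong (pl P) (p₀.map (algebraMap (pl P) K)) (fk q) := by
    rw [← hfk, cong_iff, Polynomial.map_map, ← hr, hq1]
  refine ⟨q, ⟨hq3, ?_, irr_md P q h4 hp⟩, h4⟩
  rw [hq2, hp₀.natDegree_map, hd]

/-- The congruence for the factors. -/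
theorem cong_fac (P : Pl v) {c' : K} {γ' : K[X]} {c : Reg v} {γ : (Reg v)[X]}
    (hc : Van (pl P) (c' - c)) (hc' : c' ∈ pl P) (hγ : Cong (pl P) γ' (fk γ)) :
    Cong (pl P) ((X - C c') * γ') (fk ((X - C c) * γ)) := by
  obtain ⟨j, r, hj, hr, hker, hsurj, hfk⟩ := vpj P
  obtain ⟨γ₀, rfl⟩ := int_iff.1 (cong_int hγ (fk_int P γ))
  have h1 : (X - C c') * γ₀.map (algebraMap (pl P) K) =
      ((X - C (⟨c', hc'⟩ : pl P)) * γ₀).map (algebraMap (pl P) K) := by
    rw [Polynomial.map_mul, Polynomial.map_sub, Polynomial.map_X, Polynomial.map_C]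
    rfl
  rw [← hfk, cong_iff, Polynomial.map_map, ← hr] at hγ
  rw [h1, ← hfk, cong_iff, Polynomial.map_map, ← hr, Polynomial.map_mul, Polynomial.map_mul,
    hγ, Polynomial.map_sub, Polynomial.map_sub, Polynomial.map_X, Polynomial.map_X,
    Polynomial.map_C, Polynomial.map_C]
  have h2 : IsLocalRing.residue (pl P) ⟨c', hc'⟩ = r c := by
    have h3 : c' - (c : K) = (((⟨c', hc'⟩ : pl P) - j c : pl P) : K) := by
      rw [← hj]
      rfl
    rw [h3, van_res, map_sub, sub_eq_zero] at hc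
    rw [hc, hr]
    rfl
  rw [h2]

/-- The number of elements of the residue field. -/
theorem nm_eq (P : Pl v) : Nat.card (IsLocalRing.ResidueField (pl P)) = Pool.PRM.Nm P := by
  obtain ⟨j, r, hj, hr, hker, hsurj, hfk⟩ := vpj P
  have hbij : Function.Bijective (Ideal.Quotient.lift P.asIdeal r fun a ha => (hker a).2 ha) := by
    constructor
    · rw [injective_iff_map_eq_zero]
      intro x hx
      obtain ⟨a, rfl⟩ := Ideal.Quotient.mk_surjective x
      rw [Ideal.Quotient.lift_mk] at hx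
      exact Ideal.Quotient.eq_zero_iff_mem.2 ((hker a).1 hx)
    · intro y
      obtain ⟨a, rfl⟩ := hsurj y
      exact ⟨Ideal.Quotient.mk _ a, Ideal.Quotient.lift_mk _ _ _⟩
  exact (Nat.card_congr (Equiv.ofBijective _ hbij)).symm

/-- Uniformizers. -/
theorem unif_iff (P : Pl v) (d : Reg v) : Unif (pl P) (d : K) ↔
    d ≠ 0 ∧ d ∈ P.asIdeal ∧ d ∉ P.asIdeal ^ 2 := by
  have hmem := Pool.STR.vp_mem (K := K) Pool.T1.zval P
  constructor
  · rintro ⟨h1, h2, h3, h4⟩
    have hd0 : d ≠ 0 := fun h => h1 (by rw [h]; rfl)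
    have hdP : d ∈ P.asIdeal := (van_pl P d).1 (Or.inr h3)
    refine ⟨hd0, hdP, fun h5 => ?_⟩
    obtain ⟨ϖ, hϖ, hϖ2⟩ : ∃ ϖ ∈ P.asIdeal, ϖ ∉ P.asIdeal ^ 2 := by
      obtain ⟨z, hz, hz'⟩ := SetLike.exists_of_lt (Ideal.pow_right_strictAnti P.asIdeal
        P.ne_bot P.isPrime.ne_top (show 1 < 2 by norm_num))
      have hz1 : z ∈ P.asIdeal ^ 1 := hz
      rw [pow_one] at hz1
      exact ⟨z, hz1, hz'⟩
    have hϖ0 : ϖ ≠ 0 := fun h => hϖ2 (h ▸ Ideal.zero_mem _)
    have h6 : (ϖ : K)⁻¹ ∉ pl P := by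
      rcases (van_pl P ϖ).2 hϖ with h | h
      · exact (hϖ0 (Subtype.ext h)).elim
      · exact h
    obtain ⟨m, hm, a, ha⟩ := (hmem _).1 (h4 (ϖ : K) (reg_pl P ϖ) h6)
    have h7 : m * ϖ = a * d := by
      apply Subtype.ext
      have h8 : (m : K) * ((ϖ : K) / (d : K)) = (a : K) := ha
      have h9 : (d : K) ≠ 0 := h1
      show (m : K) * (ϖ : K) = (a : K) * (d : K)
      rw [← h8]
      field_simp
    have h10 : m * ϖ ∈ P.asIdeal ^ 2 := by
      rw [h7]
      exact Ideal.mul_mem_left _ _ h5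
    obtain ⟨e, he⟩ := Pool.STR.inv_sq P hm
    apply hϖ2
    have h11 : ϖ = e * (m * ϖ) - (e * m - 1) * ϖ := by ring
    rw [h11]
    exact Ideal.sub_mem _ (Ideal.mul_mem_left _ _ h10) (Ideal.mul_mem_right _ _ he)
  · rintro ⟨h1, h2, h3⟩
    refine ⟨fun h => h1 (Subtype.ext h), reg_pl P d, ?_, ?_⟩
    · rcases (van_pl P d).2 h2 with h | h
      · exact (h1 (Subtype.ext h)).elim
      · exact h
    · intro z hz hz'
      exact Pool.STR.gen_of Pool.T1.zval P h3 h1 z hz hz'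

end P

end Pool.PRV
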