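import Pool.Agent.H13.PRV.Defs
import Pool.Agent.H79.PRM.Defs

/-!
# PRV: the Selmer groups of `Pool.PRM` and `Pool.PRV`
-/

set_option autoImplicit false

namespace Pool.PRV

open Polynomial

variable {K : Type} [Field K]

theorem cpl_iff {L : Type} [Field L] {O : ValuationSubring L} {ι : K →+* L} :
    Completion K L O ι ↔ Pool.PRM.Cpl K L O ι :=
  ⟨fun h => ⟨h.1, h.2, h.3, h.4⟩, fun h => ⟨h.1, h.2, h.3, h.4⟩⟩

theorem cop_iff {f p : K[X]} : IsCoprime p f ↔ IsUnit (AdjoinRoot.mk f p) := by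
  constructor
  · rintro ⟨a, b, h⟩
    refine IsUnit.of_mul_eq_one (AdjoinRoot.mk f a) ?_
    rw [← map_mul, ← sub_eq_zero, ← map_one (AdjoinRoot.mk f), ← map_sub, AdjoinRoot.mk_eq_zero]
    exact ⟨-b, by linear_combination h⟩
  · intro h
    obtain ⟨y, hy⟩ := isUnit_iff_exists_inv.1 h
    obtain ⟨q, rfl⟩ := AdjoinRoot.mk_surjective y
    rw [← map_mul, ← sub_eq_zero, ← map_one (AdjoinRoot.mk f), ← map_sub,
      AdjoinRoot.mk_eq_zero] at hy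
    obtain ⟨b, hb⟩ := hy
    exact ⟨q, -b, by linear_combination hb⟩

/-- The set of the polynomials in a class. -/
def phi (f : K[X]) (ξ : (AdjoinRoot f)ˣ ⧸ Pool.PRM.Sq f) : Set K[X] :=
  {q | ∃ u : (AdjoinRoot f)ˣ, AdjoinRoot.mk f q = (u : AdjoinRoot f) ∧
    (QuotientGroup.mk u : (AdjoinRoot f)ˣ ⧸ Pool.PRM.Sq f) = ξ}

theorem phi_inj (f : K[X]) : Function.Injective (phi f) := by
  intro ξ η h
  obtain ⟨u, rfl⟩ := QuotientGroup.mk_surjective ξ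
  obtain ⟨q, hq⟩ := AdjoinRoot.mk_surjective (u : AdjoinRoot f)
  have h1 : q ∈ phi f (QuotientGroup.mk u) := ⟨u, hq, rfl⟩
  rw [h] at h1
  obtain ⟨u', h2, h3⟩ := h1
  have h4 : u = u' := Units.ext (hq.symm.trans h2)
  rw [h4, h3]

theorem phi_mk {f p : K[X]} {u : (AdjoinRoot f)ˣ} (hu : AdjoinRoot.mk f p = (u : AdjoinRoot f)) :
    phi f (QuotientGroup.mk u) = cls f p := by
  ext q
  constructor
  · rintro ⟨u', h1, h2⟩
    refine ⟨cop_iff.2 (by rw [h1]; exact u'.isUnit), ?_⟩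
    rw [eq_comm, QuotientGroup.eq] at h2
    obtain ⟨z, hz⟩ := h2
    obtain ⟨s, hs⟩ := AdjoinRoot.mk_surjective (z : AdjoinRoot f)
    refine ⟨s, ?_⟩
    rw [← AdjoinRoot.mk_eq_zero, map_sub, map_mul, map_pow, hs, h1, hu]
    have h3 : u' = u * z ^ 2 := by
      have h4 : z ^ 2 = u⁻¹ * u' := hz
      rw [h4]
      group
    rw [h3]
    push_cast
    ring
  · rintro ⟨h1, s, hs⟩
    obtain ⟨u', hu'⟩ := cop_iff.1 h1
    refine ⟨u', hu'.symm, ?_⟩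
    rw [← AdjoinRoot.mk_eq_zero, map_sub, map_mul, map_pow, ← hu', hu, sub_eq_zero] at hs
    have hs2 : IsUnit (AdjoinRoot.mk f s) := by
      have h5 : IsUnit ((u : AdjoinRoot f) * AdjoinRoot.mk f s ^ 2) := by
        rw [← hs]
        exact u'.isUnit
      exact (isUnit_pow_iff two_ne_zero).1 (isUnit_of_mul_isUnit_right h5)
    obtain ⟨z, hz⟩ := hs2
    rw [eq_comm, QuotientGroup.eq]
    refine ⟨z, ?_⟩
    show z ^ 2 = u⁻¹ * u'
    have h6 : u' = u * z ^ 2 := Units.ext (by rw [hs, ← hz]; push_cast; rfl)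
    rw [h6]
    group

theorem isSel_iff {f p : K[X]} {u : (AdjoinRoot f)ˣ}
    (hu : AdjoinRoot.mk f p = (u : AdjoinRoot f)) :
    IsSel f p ↔ IsSquare (Algebra.norm K (AdjoinRoot.mk f p)) ∧
      ∀ (L : Type) [Field L] (O : ValuationSubring L) (ι : K →+* L), Pool.PRM.Cpl K L O ι →
        Pool.PRM.LocSol (f.map ι) (p.map ι) := by
  unfold IsSel
  rw [and_iff_right (cop_iff.2 (by rw [hu]; exact u.isUnit))]
  refine and_congr_right fun _ => ?_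
  constructor
  · intro h L _ O ι hc
    exact h L O ι (cpl_iff.2 hc)
  · intro h L _ O ι hc
    exact h L O ι (cpl_iff.1 hc)

theorem phi_image (f : K[X]) :
    phi f '' Pool.PRM.Sel f = {c : Set K[X] | ∃ p, IsSel f p ∧ c = cls f p} := by
  ext c
  constructor
  · rintro ⟨ξ, ⟨u, p, rfl, hu, h1, h2⟩, rfl⟩
    exact ⟨p, (isSel_iff hu).2 ⟨h1, h2⟩, phi_mk hu⟩
  · rintro ⟨p, hp, rfl⟩
    obtain ⟨u, hu⟩ := cop_iff.1 hp.1
    obtain ⟨h1, h2⟩ := (isSel_iff hu.symm).1 hp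
    exact ⟨QuotientGroup.mk u, ⟨u, p, rfl, hu.symm, h1, h2⟩, phi_mk hu.symm⟩

theorem nSel_eq (f : K[X]) : nSel f = (Pool.PRM.Sel f).ncard := by
  rw [nSel, ← phi_image, Set.ncard_image_of_injective _ (phi_inj f)]

theorem pr_eq (r : ℕ) : PR r = Pool.PRM.PR r := rfl

theorem lawZ_iff (ε : ℝ) (Z : Set K[X]) : LawZ ε Z ↔ Pool.PRM.LawZ ε Z := by
  unfold LawZ Pool.PRM.LawZ
  simp only [nSel_eq, pr_eq]

theorem mw_of {f : K[X]} (h : Pool.PRM.MW f) : MW f := by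
  intro h1
  rw [nSel_eq] at h1 ⊢
  obtain ⟨h2, h3⟩ := h (Set.finite_of_ncard_pos h1)
  exact ⟨_, ⟨h2, rfl⟩, h3⟩

open Classical in
theorem rankZ_of {ε : ℝ} {Z : Set K[X]} (h : Pool.PRM.RankZ ε Z) : RankZ ε Z := by
  obtain ⟨h1, h2, h3⟩ := h
  refine ⟨fun f hf => mw_of (h1 f hf), h2, ?_⟩
  have h4 : {f | f ∈ Z ∧ ∃ r ≤ 1, Rank f r} = {f | f ∈ Z ∧ AddGroup.FG (Pool.PRM.Pts f) ∧
      Module.finrank ℤ (Pool.PRM.Pts f) ≤ 1} := by
    ext f
    constructor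
    · rintro ⟨hf, r, hr, h5, rfl⟩
      exact ⟨hf, h5, hr⟩
    · rintro ⟨hf, h5, h6⟩
      exact ⟨hf, _, h6, h5, rfl⟩
  rw [h4]
  exact h3

end Pool.PRV
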